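import Pool.Agent.Lib.MP_021685_agTG.GD
import Pool.Agent.Lib.MP_021685_agTL3.M0

/-! The context of the proof: no definition here occurs in the statement of the theorem. -/

set_option autoImplicit false

noncomputable section

namespace TGR

open Module Function

variable {H W : Type} [AddCommGroup H] [Module ℂ H] [AddCommGroup W] [Module ℂ W] {k : ℕ}

/-- The derivation `X` acting on the form `T`. -/
def der (X : End ℂ H) (T : MultilinearMap ℂ (fun _ : Fin k => H) (W →ₗ[ℂ] ℂ)) :
    MultilinearMap ℂ (fun _ : Fin k => H) (W →ₗ[ℂ] ℂ) :=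
  ∑ a, T.compLinearMap (update (fun _ => (LinearMap.id : H →ₗ[ℂ] H)) a X)

theorem der_apply (X : End ℂ H) (T : MultilinearMap ℂ (fun _ : Fin k => H) (W →ₗ[ℂ] ℂ)) (v : Fin k → H) :
    der X T v = ∑ a, T (update v a (X (v a))) := by
  unfold der
  rw [MultilinearMap.sum_apply]
  refine Finset.sum_congr rfl fun a _ => ?_
  rw [MultilinearMap.compLinearMap_apply]
  congr 1
  funext b
  by_cases hb : b = a
  · subst hb
    rw [update_self, update_self]
  · rw [update_of_ne hb, update_of_ne hb]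
    rfl

/-- The endomorphisms which kill `T`. -/
def kill (T : MultilinearMap ℂ (fun _ : Fin k => H) (W →ₗ[ℂ] ℂ)) : Submodule ℂ (End ℂ H) where
  carrier := {X | ∀ v, ∑ a, T (update v a (X (v a))) = 0}
  add_mem' := by
    intro X Y hX hY v
    have h : ∀ a, T (update v a ((X + Y) (v a))) = T (update v a (X (v a))) + T (update v a (Y (v a))) := fun a =>
      T.map_update_add v a (X (v a)) (Y (v a))
    rw [Finset.sum_congr rfl fun a _ => h a, Finset.sum_add_distrib, hX v, hY v, add_zero]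
  zero_mem' := by
    intro v
    refine Finset.sum_eq_zero fun a _ => ?_
    exact T.map_coord_zero (i := a) (by rw [update_self]; rfl)
  smul_mem' := by
    intro c X hX v
    have h : ∀ a, T (update v a ((c • X) (v a))) = c • T (update v a (X (v a))) := fun a =>
      T.map_update_smul v a c (X (v a))
    rw [Finset.sum_congr rfl fun a _ => h a, ← Finset.smul_sum, hX v, smul_zero]

theorem mem_kill {T : MultilinearMap ℂ (fun _ : Fin k => H) (W →ₗ[ℂ] ℂ)} {X : End ℂ H} :
    X ∈ kill T ↔ ∀ v, ∑ a, T (update v a (X (v a))) = 0 := Iff.rfl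

/-- The endomorphisms which are skew for the form `ψ`. -/
def sp (ψ : H →ₗ[ℂ] H →ₗ[ℂ] ℂ) : Submodule ℂ (End ℂ H) where
  carrier := {X | ∀ u v, ψ (X u) v + ψ u (X v) = 0}
  add_mem' := by
    intro X Y hX hY u v
    have h1 := hX u v
    have h2 := hY u v
    show ψ (X u + Y u) v + ψ u (X v + Y v) = 0
    rw [map_add, map_add, LinearMap.add_apply]
    linear_combination h1 + h2
  zero_mem' := by
    intro u v
    show ψ (0 : H) v + ψ u (0 : H) = 0
    rw [map_zero, map_zero, LinearMap.zero_apply, add_zero]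
  smul_mem' := by
    intro c X hX u v
    have h1 := hX u v
    show ψ (c • X u) v + ψ u (c • X v) = 0
    rw [map_smul, map_smul, LinearMap.smul_apply, smul_eq_mul, smul_eq_mul]
    linear_combination c * h1

theorem mem_sp {ψ : H →ₗ[ℂ] H →ₗ[ℂ] ℂ} {X : End ℂ H} : X ∈ sp ψ ↔ ∀ u v, ψ (X u) v + ψ u (X v) = 0 := Iff.rfl

/-- The skew endomorphisms which kill `T`. -/
def alg (T : MultilinearMap ℂ (fun _ : Fin k => H) (W →ₗ[ℂ] ℂ)) (ψ : H →ₗ[ℂ] H →ₗ[ℂ] ℂ) : Submodule ℂ (End ℂ H) :=
  kill T ⊓ sp ψ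

/-- The subspace `S` is stable under the endomorphisms in `A`. -/
def IsStable (A : Submodule ℂ (End ℂ H)) (S : Submodule ℂ H) : Prop := ∀ X ∈ A, ∀ v ∈ S, X v ∈ S

/-- The normal form: `ψ (e i, e (bar i)) = ε i` are signs, the other products are zero. -/
structure Nf {ι : Type} [Fintype ι] [DecidableEq ι] (bar : ι → ι) (ε : ι → ℂ) (e : Basis ι ℂ H)
    (ψ : H →ₗ[ℂ] H →ₗ[ℂ] ℂ) : Prop where
  bar_bar : ∀ i, bar (bar i) = i
  bar_ne : ∀ i, bar i ≠ i
  ε_sq : ∀ i, ε i * ε i = 1
  ε_conj : ∀ i, (starRingEnd ℂ) (ε i) = ε i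
  ε_bar : ∀ i, ε (bar i) = - ε i
  form : ∀ i j, ψ (e i) (e j) = if j = bar i then ε i else 0

end TGR
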