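import Pool.Agent.Lib.MP_021685_agTG.G0

/-! LEAF GA (medium-, Mathlib only).  The brackets of endomorphisms which kill `T` kill `T`.

PROOF.  `der X T = 0` and `der Y T = 0` (`der_apply`, `MultilinearMap.ext`), so `der Y (der X T) v - der X (der Y T) v = 0`.  By `der_apply` twice `der Y (der X T) v = ∑ a, ∑ b, T (update (update v a (Y (v a))) b (X (update v a (Y (v a)) b)))`;
the terms with `b = a` give `T (update v a (X (Y (v a))))` (`update_idem`), the terms with `b ≠ a` give `T (update (update v a (Y (v a))) b (X (v b)))`, and these agree with the corresponding terms of `der X (der Y T) v` after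
`Finset.sum_comm` and `update_comm`.  What remains is `∑ a, (T (update v a (X (Y (v a)))) - T (update v a (Y (X (v a))))) = ∑ a, T (update v a ((X * Y - Y * X) (v a)))` (`MultilinearMap.map_update_sub`). -/

set_option autoImplicit false

namespace TGR

open Module Function

theorem kill_bracket {H W : Type} [AddCommGroup H] [Module ℂ H] [AddCommGroup W] [Module ℂ W] {k : ℕ}
    {T : MultilinearMap ℂ (fun _ : Fin k => H) (W →ₗ[ℂ] ℂ)} {X Y : End ℂ H} (hX : X ∈ kill T) (hY : Y ∈ kill T) :
    X * Y - Y * X ∈ kill T := by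
  intro v
  obtain ⟨F, hF⟩ : ∃ F : Fin k → Fin k → W →ₗ[ℂ] ℂ, F = fun a b =>
    T (update (update v a (Y (v a))) b (X (update v a (Y (v a)) b))) := ⟨_, rfl⟩
  obtain ⟨G, hG⟩ : ∃ G : Fin k → Fin k → W →ₗ[ℂ] ℂ, G = fun a b =>
    T (update (update v a (X (v a))) b (Y (update v a (X (v a)) b))) := ⟨_, rfl⟩
  have h1 : ∑ a, ∑ b, F a b = 0 := by
    rw [hF]
    exact Finset.sum_eq_zero fun a _ => hX _
  have h2 : ∑ b, ∑ a, G a b = 0 := by
    rw [Finset.sum_comm, hG]
    exact Finset.sum_eq_zero fun a _ => hY _
  have h3 : ∑ a, ∑ b, (F a b - G b a) = 0 := by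
    simp only [Finset.sum_sub_distrib]
    rw [h1, h2, sub_zero]
  have h4 : ∀ a, ∑ b, (F a b - G b a) = T (update v a ((X * Y - Y * X) (v a))) := by
    intro a
    rw [Finset.sum_eq_single a]
    · rw [hF, hG]
      simp only [update_self, update_idem]
      rw [LinearMap.sub_apply, MultilinearMap.map_update_sub]
      rfl
    · intro b _ hb
      rw [hF, hG]
      simp only [update_of_ne hb, update_of_ne hb.symm]
      rw [update_comm hb, sub_self]
    · intro h
      exact absurd (Finset.mem_univ _) h
  rw [← Finset.sum_congr rfl fun a _ => h4 a]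
  exact h3

end TGR
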