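import Pool.Agent.Lib.MP_021685_agTG.G0

/-! LEAF GB1 (easy+, Mathlib only).  A power of `φ` is in the subgroup of finite index.

PROOF.  Some power `φ ^ d`, `0 < d`, is in `G'` (`Subgroup.exists_pow_mem_of_index_ne_zero` or `Subgroup.exists_pow_mem_of_relIndex_ne_zero`, `Subgroup.FiniteIndex.index_ne_zero`).  `hT (φ ^ d)` with `map_pow` for `ρ`, `σ`, `μ`:
`(μ (φ ^ d)) ^ i = (μ φ) ^ (d * i)` as a unit (`zpow_mul`, `zpow_natCast`), and its value in `ℂ` is `Q ^ (d * i)` (`Units.val_zpow_eq_zpow_val`, `hφ`). -/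

set_option autoImplicit false

namespace TGR

open Module Function

theorem exists_pow {G H W : Type} [Group G] [AddCommGroup H] [Module ℂ H] [AddCommGroup W] [Module ℂ W]
    {ρ : Representation ℂ G H} {σ : Representation ℂ G W} {μ : G →* ℂˣ} {φ : G} {Q : ℕ} (hφ : (μ φ : ℂ) = Q)
    {G' : Subgroup G} (hG : G'.FiniteIndex) {k : ℕ} {i : ℤ} {T : MultilinearMap ℂ (fun _ : Fin k => H) (W →ₗ[ℂ] ℂ)}
    (hT : IsTate ρ σ μ G' i T) :
    ∃ d : ℕ, 0 < d ∧ ∀ v w, T (fun a => (ρ φ ^ d) (v a)) ((σ φ ^ d) w) = (Q : ℂ) ^ ((d : ℤ) * i) * T v w := by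
  obtain ⟨d, hd, -, hmem⟩ := Subgroup.exists_pow_mem_of_index_ne_zero hG.index_ne_zero φ
  refine ⟨d, hd, fun v w => ?_⟩
  have h := hT (φ ^ d) hmem v w
  rw [map_pow, map_pow, map_pow, Units.val_zpow_eq_zpow_val, Units.val_pow_eq_pow_val, hφ, ← zpow_natCast,
    ← zpow_mul] at h
  exact h

end TGR
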