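import Pool.Agent.Lib.MP_021685_agTAR.RD

/-! The matching of the factors of a relation, from `TAR.FullOver`. -/

set_option autoImplicit false

namespace TGR

open Polynomial

private theorem GN2_apply {ι : Type} [Fintype ι] [DecidableEq ι] (lam : ι → ℂ) (v : ι → ℂ) (i : ι) :
    Matrix.toLin' (Matrix.diagonal lam) v i = lam i * v i := by
  rw [Matrix.toLin'_apply, Matrix.mulVec_diagonal]

private theorem GN2_single {ι : Type} [Fintype ι] [DecidableEq ι] (lam : ι → ℂ) (i : ι) :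
    Matrix.toLin' (Matrix.diagonal lam) (Pi.single i 1) = lam i • (Pi.single i 1 : ι → ℂ) := by
  funext j
  rw [GN2_apply, Pi.smul_apply, smul_eq_mul]
  rcases eq_or_ne j i with h | h
  · rw [h]
  · rw [Pi.single_eq_of_ne h, mul_zero, mul_zero]

private theorem GN2_semisimple {ι : Type} [Fintype ι] [DecidableEq ι] (lam : ι → ℂ) :
    Module.End.IsSemisimple (Matrix.toLin' (Matrix.diagonal lam)) := by
  classical
  have hsq : Squarefree (∏ z ∈ Finset.univ.image lam, (X - C z)) := by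
    apply Polynomial.Separable.squarefree
    have := (Polynomial.separable_prod_X_sub_C_iff' (f := fun z : ℂ => z)
      (s := Finset.univ.image lam)).2 fun x _ y _ h => h
    exact this
  refine Module.End.isSemisimple_of_squarefree_aeval_eq_zero hsq ?_
  apply (Pi.basisFun ℂ ι).ext
  intro i
  rw [Pi.basisFun_apply, LinearMap.zero_apply]
  have hne : (Pi.single i 1 : ι → ℂ) ≠ 0 := by
    intro h
    have h1 := congrFun h i
    rw [Pi.single_eq_same, Pi.zero_apply] at h1
    exact one_ne_zero h1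
  have hev : Module.End.HasEigenvector (Matrix.toLin' (Matrix.diagonal lam)) (lam i)
      (Pi.single i 1 : ι → ℂ) :=
    ⟨Module.End.mem_eigenspace_iff.2 (GN2_single lam i), hne⟩
  rw [Module.End.aeval_apply_of_hasEigenvector hev, Polynomial.eval_prod]
  have h0 : ∏ z ∈ Finset.univ.image lam, Polynomial.eval (lam i) (X - C z) = 0 := by
    refine Finset.prod_eq_zero (Finset.mem_image_of_mem lam (Finset.mem_univ i)) ?_
    rw [Polynomial.eval_sub, Polynomial.eval_X, Polynomial.eval_C, sub_self]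
  rw [h0, zero_smul]

private theorem GN2_eig {y mu : ℂ} (h : Module.End.HasEigenvalue (y • (LinearMap.id : ℂ →ₗ[ℂ] ℂ)) mu) : mu = y := by
  obtain ⟨w, hw, hw0⟩ := h.exists_hasEigenvector
  rw [Module.End.mem_eigenspace_iff] at hw
  rw [LinearMap.smul_apply, LinearMap.id_apply, smul_eq_mul, smul_eq_mul] at hw
  exact (mul_right_cancel₀ hw0 hw).symm

theorem match_of_fullOver {q : ℕ} {P : ℤ[X]} {g : ℕ} (hF : TAR.FullOver q P g) {ι : Type} [Fintype ι]
    [DecidableEq ι] {lam : ι → ℂ} (hP : P.map (Int.castRingHom ℂ) = ∏ i, (X - C (lam i))) {k : ℕ} (s : Fin k → ι)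
    {y : ℂ} (hy : TAR.Small q P g y) (b : ℕ) (hs : (∏ a, lam (s a)) * y = ((Real.sqrt q : ℝ) : ℂ) ^ (k + b)) :
    ∃ (m : ℕ) (e : Fin m ⊕ Fin m ≃ Fin k), ∀ i,
      lam (s (e (Sum.inl i))) * lam (s (e (Sum.inr i))) = (q : ℂ) := by
  have hchar : (Matrix.toLin' (Matrix.diagonal lam)).charpoly = P.map (Int.castRingHom ℂ) := by
    rw [Matrix.charpoly_toLin', Matrix.charpoly_diagonal, hP]
  obtain ⟨T, hTv⟩ : ∃ T : MultilinearMap ℂ (fun _ : Fin k => ι → ℂ) (ℂ →ₗ[ℂ] ℂ),
      ∀ v w, T v w = (∏ a, v a (s a)) * w := by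
    refine ⟨(LinearMap.lsmul ℂ ℂ).compMultilinearMap ((MultilinearMap.mkPiAlgebra ℂ (Fin k) ℂ).compLinearMap
      fun a => (LinearMap.proj (s a) : (ι → ℂ) →ₗ[ℂ] ℂ)), fun v w => ?_⟩
    rw [LinearMap.compMultilinearMap_apply, MultilinearMap.compLinearMap_apply, MultilinearMap.mkPiAlgebra_apply]
    rfl
  have hT : ∀ v w, T (fun a => (Matrix.toLin' (Matrix.diagonal lam) ^ 1) (v a))
      ((y • (LinearMap.id : ℂ →ₗ[ℂ] ℂ)) w) = ((Real.sqrt q : ℝ) : ℂ) ^ (1 * (k + b)) * T v w := by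
    intro v w
    rw [hTv, hTv, pow_one, one_mul, ← hs, LinearMap.smul_apply, LinearMap.id_apply, smul_eq_mul]
    have h1 : ∏ a, Matrix.toLin' (Matrix.diagonal lam) (v a) (s a) = (∏ a, lam (s a)) * ∏ a, v a (s a) := by
      rw [← Finset.prod_mul_distrib]
      exact Finset.prod_congr rfl fun a _ => GN2_apply lam (v a) (s a)
    rw [h1]
    ring
  have hspan := hF (ι → ℂ) ℂ (Matrix.toLin' (Matrix.diagonal lam)) (y • (LinearMap.id : ℂ →ₗ[ℂ] ℂ))
    (GN2_semisimple lam) hchar (fun mu hmu => by rw [GN2_eig hmu]; exact hy) 1 k b one_pos T hT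
  by_contra hcon
  have hz : ∀ T' ∈ Submodule.span ℂ {T' : MultilinearMap ℂ (fun _ : Fin k => ι → ℂ) (ℂ →ₗ[ℂ] ℂ) |
      TK.IsProdOver q 1 k b (Matrix.toLin' (Matrix.diagonal lam)) (y • (LinearMap.id : ℂ →ₗ[ℂ] ℂ)) T'},
      T' (fun a => Pi.single (s a) 1) 1 = 0 := by
    intro T' hT'
    induction hT' using Submodule.span_induction with
    | mem T₀ h =>
      obtain ⟨T₁, c, ⟨m, e, bb, hb, hprod⟩, hc, hTT⟩ := h
      rw [hTT, hprod]
      by_contra hne
      apply hcon
      refine ⟨m, e, fun i => ?_⟩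
      have hne1 := left_ne_zero_of_mul hne
      have hi := Finset.prod_ne_zero_iff.1 hne1 i (Finset.mem_univ i)
      have h1 := hb i (Pi.single (s (e (Sum.inl i))) 1) (Pi.single (s (e (Sum.inr i))) 1)
      rw [pow_one, pow_one, GN2_single, GN2_single, map_smul, map_smul, LinearMap.smul_apply,
        smul_eq_mul, smul_eq_mul, ← mul_assoc] at h1
      have h2 := mul_right_cancel₀ hi h1
      rw [mul_comm]
      exact h2
    | zero => rfl
    | add x y _ _ hx hy => rw [add_apply, LinearMap.add_apply, hx, hy, add_zero]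
    | smul c x _ hx => rw [smul_apply, LinearMap.smul_apply, hx, smul_zero]
  have h1 := hz T hspan
  rw [hTv] at h1
  have h2 : ∏ a, (Pi.single (s a) (1 : ℂ) : ι → ℂ) (s a) = 1 :=
    Finset.prod_eq_one fun a _ => Pi.single_eq_same _ _
  rw [h2, one_mul] at h1
  exact one_ne_zero h1

end TGR
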