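import Pool.Agent.Lib.MP_021685_agTG.GN1
import Pool.Agent.Lib.MP_021685_agTG.GN2

/-! The relations with a foreign factor. -/

set_option autoImplicit false

namespace TGR

open Polynomial

/-- a tuple which takes every value `i` exactly `c i` times -/
private theorem GN3_tuple {ι : Type} [Fintype ι] [DecidableEq ι] (c : ι → ℕ) :
    ∃ s : Fin (∑ i, c i) → ι, ∀ i, (Finset.univ.filter fun a => s a = i).card = c i := by
  have hcard : Fintype.card (Σ i, Fin (c i)) = ∑ i, c i := by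
    rw [Fintype.card_sigma]
    simp
  obtain ⟨e⟩ : Nonempty ((Σ i, Fin (c i)) ≃ Fin (∑ i, c i)) := ⟨Fintype.equivFinOfCardEq hcard⟩
  refine ⟨fun a => (e.symm a).1, fun i => ?_⟩
  have h1 : (Finset.univ.filter fun a => (e.symm a).1 = i) =
      (Finset.univ : Finset (Fin (c i))).map ⟨fun x => e ⟨i, x⟩, fun x y h => by
        have h2 := e.injective h
        simpa using h2⟩ := by
    ext a
    simp only [Finset.mem_filter, Finset.mem_univ, true_and, Finset.mem_map, Function.Embedding.coeFn_mk]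
    constructor
    · intro h
      obtain ⟨b, rfl⟩ := e.surjective a
      rw [Equiv.symm_apply_apply] at h
      obtain ⟨j, x⟩ := b
      dsimp only at h
      subst h
      exact ⟨x, rfl⟩
    · rintro ⟨x, rfl⟩
      rw [Equiv.symm_apply_apply]
  rw [h1, Finset.card_map, Finset.card_univ, Fintype.card_fin]

theorem rel_of_fullOver {q : ℕ} (hq : 1 < q) {P : ℤ[X]} {g : ℕ} (hg : 0 < g) (hF : TAR.FullOver q P g)
    {ι : Type} [Fintype ι] [DecidableEq ι] {lam : ι → ℂ}
    (hP : P.map (Int.castRingHom ℂ) = ∏ i, (X - C (lam i))) (hinj : Function.Injective lam) (bar : ι → ι)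
    (hbb : ∀ i, bar (bar i) = i) (hbar : ∀ i, lam i * lam (bar i) = (q : ℂ)) (n : ι → ℤ) {y : ℂ}
    (hy : TAR.Small q P g y) (hn : (∏ i, lam i ^ n i) * y = 1) (i : ι) : n (bar i) = n i := by
  have hq0c : (q : ℂ) ≠ 0 := by
    have : q ≠ 0 := by omega
    exact_mod_cast this
  have hq0 : (0 : ℝ) < q := by
    have : 0 < q := by omega
    exact_mod_cast this
  have hlam : ∀ i, lam i ≠ 0 := by
    intro i h
    have h1 := hbar i
    rw [h, zero_mul] at h1
    exact hq0c h1.symm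
  obtain ⟨p, hp⟩ : ∃ p : ι → ℕ, p = fun i => (n i).toNat := ⟨_, rfl⟩
  obtain ⟨m, hm⟩ : ∃ m : ι → ℕ, m = fun i => (-n i).toNat := ⟨_, rfl⟩
  have hpm : ∀ i, (p i : ℤ) = n i + m i := by
    intro i
    rw [hp, hm]
    dsimp only
    omega
  obtain ⟨c, hc⟩ : ∃ c : ι → ℕ, c = fun i => p i + m (bar i) := ⟨_, rfl⟩
  have hinv : Function.Involutive bar := hbb
  have hsub : ∀ {M : Type} [CommMonoid M] (f : ι → M), ∏ i, f (bar i) = ∏ i, f i := by
    intro M _ f
    exact Equiv.prod_comp hinv.toPerm f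
  have hsubs : ∀ f : ι → ℕ, ∑ i, f (bar i) = ∑ i, f i := by
    intro f
    exact Equiv.sum_comp hinv.toPerm f
  have hpp : ∏ i, lam i ^ p i = (∏ i, lam i ^ n i) * ∏ i, lam i ^ m i := by
    have h1 : ∀ i, lam i ^ p i = lam i ^ n i * lam i ^ m i := by
      intro i
      rw [← zpow_natCast, hpm, zpow_add₀ (hlam i), zpow_natCast]
    rw [Finset.prod_congr rfl fun i _ => h1 i, Finset.prod_mul_distrib]
  have hprod : ∏ i, lam i ^ c i = (∏ i, lam i ^ n i) * (q : ℂ) ^ (∑ i, m i) := by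
    have h1 : ∀ i, lam i ^ c i = lam i ^ p i * lam i ^ m (bar i) := by
      intro i
      rw [hc]
      exact pow_add _ _ _
    rw [Finset.prod_congr rfl fun i _ => h1 i, Finset.prod_mul_distrib, hpp, mul_assoc]
    congr 1
    have h2 : ∏ i, lam i ^ m (bar i) = ∏ i, lam (bar i) ^ m i := by
      rw [← hsub fun i => lam i ^ m (bar i)]
      exact Finset.prod_congr rfl fun i _ => by rw [hbb]
    rw [h2, ← Finset.prod_mul_distrib, ← Finset.prod_pow_eq_pow_sum]
    refine Finset.prod_congr rfl fun i _ => ?_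
    rw [← mul_pow, hbar]
  have hMk : ∑ i, m i ≤ ∑ i, c i := by
    rw [hc, Finset.sum_add_distrib, hsubs m]
    omega
  have hy' : TAR.Small q P g (y * (q : ℂ) ^ (∑ i, c i - ∑ i, m i)) := by
    have h1 := small_mul hy (small_nat (q := q) (P := P) hg (q ^ (∑ i, c i - ∑ i, m i)))
    rwa [Nat.cast_pow] at h1
  obtain ⟨s, hs⟩ := GN3_tuple c
  have hsprod : (∏ a, lam (s a)) * (y * (q : ℂ) ^ (∑ i, c i - ∑ i, m i)) =
      ((Real.sqrt q : ℝ) : ℂ) ^ (∑ i, c i + ∑ i, c i) := by
    have h0 : ∏ a, lam (s a) = ∏ i, lam i ^ c i := by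
      rw [← Finset.prod_fiberwise Finset.univ s fun a => lam (s a)]
      refine Finset.prod_congr rfl fun i _ => ?_
      rw [← hs i, ← Finset.prod_const]
      refine Finset.prod_congr rfl fun a ha => ?_
      rw [(Finset.mem_filter.mp ha).2]
    have h1 : ((Real.sqrt q : ℝ) : ℂ) ^ (∑ i, c i + ∑ i, c i) = (q : ℂ) ^ (∑ i, c i) := by
      rw [← two_mul, pow_mul]
      congr 1
      rw [← Complex.ofReal_pow, Real.sq_sqrt hq0.le]
      norm_num
    rw [h0, h1, hprod]
    calc (∏ i, lam i ^ n i) * (q : ℂ) ^ (∑ i, m i) * (y * (q : ℂ) ^ (∑ i, c i - ∑ i, m i)) =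
        ((∏ i, lam i ^ n i) * y) * ((q : ℂ) ^ (∑ i, m i) * (q : ℂ) ^ (∑ i, c i - ∑ i, m i)) := by ring
      _ = (q : ℂ) ^ (∑ i, c i) := by rw [hn, one_mul, ← pow_add, Nat.add_sub_cancel' hMk]
  obtain ⟨m0, e, he⟩ := match_of_fullOver hF hP s hy' (∑ i, c i) hsprod
  have hr : ∀ x, s (e (Sum.inr x)) = bar (s (e (Sum.inl x))) := by
    intro x
    apply hinj
    have h1 := he x
    rw [← hbar (s (e (Sum.inl x)))] at h1
    exact mul_left_cancel₀ (hlam _) h1
  have hl : ∀ x, s (e (Sum.inl x)) = bar (s (e (Sum.inr x))) := by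
    intro x
    rw [hr, hbb]
  have hswap : ∀ y, s (e y.swap) = bar (s (e y)) := by
    intro y
    rcases y with x | x
    · exact hr x
    · exact hl x
  have hcc : c i = c (bar i) := by
    rw [← hs i, ← hs (bar i)]
    refine Finset.card_bij' (fun a _ => e (e.symm a).swap) (fun a _ => e (e.symm a).swap) ?_ ?_ ?_ ?_
    · intro a ha
      rw [Finset.mem_filter] at ha ⊢
      refine ⟨Finset.mem_univ _, ?_⟩
      rw [hswap, Equiv.apply_symm_apply, ha.2]
    · intro a ha
      rw [Finset.mem_filter] at ha ⊢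
      refine ⟨Finset.mem_univ _, ?_⟩
      rw [hswap, Equiv.apply_symm_apply, ha.2, hbb]
    · intro a _
      rw [Equiv.symm_apply_apply, Sum.swap_swap, Equiv.apply_symm_apply]
    · intro a _
      rw [Equiv.symm_apply_apply, Sum.swap_swap, Equiv.apply_symm_apply]
  rw [hc] at hcc
  dsimp only at hcc
  rw [hbb] at hcc
  have h1 := hpm i
  have h2 := hpm (bar i)
  have h3 : (p i : ℤ) + m (bar i) = p (bar i) + m i := by exact_mod_cast hcc
  linarith

end TGR
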