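import Pool.Agent.Lib.MP_021685_agTG.G0
import Pool.Agent.Lib.MP_021685_agTG.GN3
import Pool.Agent.Lib.MP_021685_agTI.FG

/-! LEAF GB2 (medium).  The weights of a form which is an eigenvector for `F ^ d`, `Φ ^ d`.

PROOF.  Let `ℓ = T (fun a => e (s a)) ≠ 0`.  `(F ^ d) (e i) = lam i ^ d • e i`, so `(∏ a, lam (s a)) ^ d * ℓ ((Φ ^ d) w) = Q ^ j * ℓ w` (`MultilinearMap.map_smul_univ`).  `lam i ≠ 0` (`hbar`), so `ℓ ((Φ ^ d) w) = c * ℓ w` with
`c = Q ^ j / (∏ a, lam (s a)) ^ d`.  `TI.eig` (`MP_021685_agTI/FG.lean`) gives a root `y` of `Φ.charpoly` with `y ^ d = c ≠ 0`; it is an eigenvalue (`Module.End.hasEigenvalue_iff_isRoot_charpoly`), so `TAR.Small Q P g y`, and `y ≠ 0`.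
Let `cnt i` be the number of the `a` with `s a = i`: `∏ a, lam (s a) = ∏ i, lam i ^ cnt i` (`Finset.prod_fiberwise`/`Finset.prod_comp`), so `(∏ i, lam i ^ (d * cnt i : ℤ)) * (y ^ d * (Q : ℂ) ^ (-j)) = 1`, and the second factor
is `TAR.Small Q P g` (`small_prod` in `GN1.lean` for `Fin 2`, `rho = ![y, Q]`, `l = ![d, -j]`; `small_nat hg Q`).  `rel_of_fullOver` gives `d * cnt (bar i) = d * cnt i`, so `cnt (bar i) = cnt i`.
Hence `S = ∑ a, x (s a) = ∑ i, cnt i * x i = ∑ i, cnt (bar i) * x (bar i) = - S` (`Equiv.sum_comp` with the involution `bar`), so `S = 0`. -/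

set_option autoImplicit false

namespace TGR

open Polynomial Module Function

theorem weight {H W : Type} [AddCommGroup H] [Module ℂ H] [AddCommGroup W] [Module ℂ W] [FiniteDimensional ℂ W]
    {Q g : ℕ} (hQ : 1 < Q) (hg : 0 < g) {P : ℤ[X]} (hF : TAR.FullOver Q P g) {ι : Type} [Fintype ι] [DecidableEq ι]
    {lam : ι → ℂ} (hlam : P.map (Int.castRingHom ℂ) = ∏ i, (X - C (lam i))) (hinj : Function.Injective lam)
    {bar : ι → ι} (hbb : ∀ i, bar (bar i) = i) (hbar : ∀ i, lam i * lam (bar i) = (Q : ℂ)) (e : Basis ι ℂ H)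
    {F : End ℂ H} (he : ∀ i, F (e i) = lam i • e i) {Φ : End ℂ W} (hsm : ∀ y, End.HasEigenvalue Φ y → TAR.Small Q P g y)
    {d : ℕ} (hd : 0 < d) {j : ℤ} {k : ℕ} {T : MultilinearMap ℂ (fun _ : Fin k => H) (W →ₗ[ℂ] ℂ)}
    (hT : ∀ v w, T (fun a => (F ^ d) (v a)) ((Φ ^ d) w) = (Q : ℂ) ^ j * T v w) (s : Fin k → ι)
    (hs : T (fun a => e (s a)) ≠ 0) {x : ι → ℂ} (hx : ∀ i, x (bar i) = - x i) : ∑ a, x (s a) = 0 := by
  have hQ0 : (Q : ℂ) ≠ 0 := by
    have : Q ≠ 0 := by omega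
    exact_mod_cast this
  have hlam0 : ∀ i, lam i ≠ 0 := by
    intro i h
    have h1 := hbar i
    rw [h, zero_mul] at h1
    exact hQ0 h1.symm
  have hFd : ∀ (r : ℕ) (i : ι), (F ^ r) (e i) = lam i ^ r • e i := by
    intro r i
    induction r with
    | zero => rw [pow_zero, pow_zero, one_smul]; rfl
    | succ r ih =>
      rw [pow_succ', Module.End.mul_apply, ih, map_smul, he, smul_smul, pow_succ]
  obtain ⟨Λ, hΛ⟩ : ∃ Λ : ℂ, Λ = (∏ a, lam (s a)) ^ d := ⟨_, rfl⟩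
  have hΛ0 : Λ ≠ 0 := by
    rw [hΛ]
    exact pow_ne_zero _ (Finset.prod_ne_zero_iff.2 fun a _ => hlam0 _)
  have h1 : ∀ w, T (fun a => e (s a)) ((Φ ^ d) w) = ((Q : ℂ) ^ j / Λ) * T (fun a => e (s a)) w := by
    intro w
    have h2 := hT (fun a => e (s a)) w
    have h3 : (fun a => (F ^ d) (e (s a))) = fun a => (lam (s a) ^ d) • e (s a) := funext fun a => hFd d (s a)
    rw [h3, MultilinearMap.map_smul_univ, LinearMap.smul_apply, smul_eq_mul, Finset.prod_pow, ← hΛ] at h2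
    rw [div_mul_eq_mul_div, eq_div_iff hΛ0, ← h2, mul_comm]
  obtain ⟨y, hy, hyd⟩ := TI.eig Φ d ((Q : ℂ) ^ j / Λ) _ hs h1
  have hysm : TAR.Small Q P g y := hsm y ((Module.End.hasEigenvalue_iff_isRoot_charpoly Φ y).2 hy)
  have hy0 : y ≠ 0 := by
    intro h
    rw [h, zero_pow hd.ne'] at hyd
    exact div_ne_zero (zpow_ne_zero _ hQ0) hΛ0 hyd.symm
  obtain ⟨cnt, hcnt⟩ : ∃ cnt : ι → ℕ, ∀ i, (Finset.univ.filter fun a => s a = i).card = cnt i := ⟨_, fun i => rfl⟩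
  have hprod : ∏ a, lam (s a) = ∏ i, lam i ^ cnt i := by
    rw [← Finset.prod_fiberwise Finset.univ s fun a => lam (s a)]
    refine Finset.prod_congr rfl fun i _ => ?_
    rw [← hcnt i, ← Finset.prod_const]
    refine Finset.prod_congr rfl fun a ha => ?_
    rw [(Finset.mem_filter.mp ha).2]
  have hsum : ∑ a, x (s a) = ∑ i, (cnt i : ℂ) * x i := by
    rw [← Finset.sum_fiberwise Finset.univ s fun a => x (s a)]
    refine Finset.sum_congr rfl fun i _ => ?_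
    rw [← hcnt i, ← nsmul_eq_mul, ← Finset.sum_const]
    refine Finset.sum_congr rfl fun a ha => ?_
    rw [(Finset.mem_filter.mp ha).2]
  have hsp := small_prod (q := Q) (P := P) (g := g) (κ := Fin 2) (rho := ![y, (Q : ℂ)]) (by
    intro a
    refine Fin.cases ⟨hy0, hysm⟩ (fun a => ?_) a
    refine Fin.cases ⟨hQ0, small_nat hg Q⟩ (fun a => a.elim0) a) ![(d : ℤ), -j]
  have hval : ∏ a : Fin 2, (![y, (Q : ℂ)] a) ^ (![(d : ℤ), -j] a) = y ^ d * (Q : ℂ) ^ (-j) := by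
    rw [Fin.prod_univ_two]
    simp only [Matrix.cons_val_zero, Matrix.cons_val_one, zpow_natCast]
  rw [hval] at hsp
  have hrel : ∀ i, ((d : ℤ) * cnt (bar i)) = (d : ℤ) * cnt i := by
    intro i
    refine rel_of_fullOver hQ hg hF hlam hinj bar hbb hbar (fun i => (d : ℤ) * cnt i) hsp.2 ?_ i
    have h4 : ∏ i, lam i ^ ((d : ℤ) * cnt i) = Λ := by
      rw [hΛ, hprod, ← Finset.prod_pow]
      refine Finset.prod_congr rfl fun i _ => ?_
      rw [← pow_mul, mul_comm (cnt i) d, ← zpow_natCast]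
      push_cast
      rfl
    rw [h4, hyd, zpow_neg, div_mul_eq_mul_div, mul_inv_cancel₀ (zpow_ne_zero _ hQ0), mul_one_div, div_self hΛ0]
  have hcb : ∀ i, cnt (bar i) = cnt i := by
    intro i
    have h5 := hrel i
    have hd' : (d : ℤ) ≠ 0 := by exact_mod_cast hd.ne'
    have h6 := mul_left_cancel₀ hd' h5
    exact_mod_cast h6
  have hinv : Function.Involutive bar := hbb
  have h7 : ∑ i, (cnt (bar i) : ℂ) * x (bar i) = ∑ i, (cnt i : ℂ) * x i :=
    Equiv.sum_comp hinv.toPerm fun i => (cnt i : ℂ) * x i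
  have h8 : ∑ i, (cnt (bar i) : ℂ) * x (bar i) = - ∑ i, (cnt i : ℂ) * x i := by
    rw [← Finset.sum_neg_distrib]
    refine Finset.sum_congr rfl fun i _ => ?_
    rw [hcb, hx, mul_neg]
  rw [hsum]
  rw [h7] at h8
  exact self_eq_neg.1 h8

end TGR
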