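import Pool.Agent.Lib.MP_021685_agTG.G0

/-! LEAF GB3 (easy+, Mathlib only).  Diagonal endomorphisms which kill `T`.

PROOF.  By `der_apply` it is enough that `der X T = 0` for `X = toLin e e (diagonal x)`; by `Basis.ext_multilinear` (the basis `e` for every argument) it is enough to take `v a = e (s a)`.  `X (e i) = x i • e i`
(`Matrix.toLin_self`), so `∑ a, T (update v a (x (s a) • v a)) = ∑ a, x (s a) • T v = (∑ a, x (s a)) • T v` (`MultilinearMap.map_update_smul`, `update_eq_self`), zero by `h` (or because `T v = 0`). -/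

set_option autoImplicit false

namespace TGR

open Module Function

theorem diag_kill {H W ι : Type} [AddCommGroup H] [Module ℂ H] [AddCommGroup W] [Module ℂ W] [Fintype ι]
    [DecidableEq ι] (e : Basis ι ℂ H) {k : ℕ} {T : MultilinearMap ℂ (fun _ : Fin k => H) (W →ₗ[ℂ] ℂ)} {x : ι → ℂ}
    (h : ∀ s : Fin k → ι, T (fun a => e (s a)) ≠ 0 → ∑ a, x (s a) = 0) :
    Matrix.toLin e e (Matrix.diagonal x) ∈ kill T := by
  have hX : ∀ i, Matrix.toLin e e (Matrix.diagonal x) (e i) = x i • e i := by
    intro i
    rw [Matrix.toLin_self]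
    simp only [Matrix.diagonal_apply, ite_smul, zero_smul]
    rw [Finset.sum_ite_eq' Finset.univ i fun j => x j • e j, if_pos (Finset.mem_univ i)]
  have h0 : der (Matrix.toLin e e (Matrix.diagonal x)) T = 0 := by
    refine Basis.ext_multilinear (fun _ => e) fun s => ?_
    rw [der_apply, zero_apply]
    have h1 : ∀ a, T (update (fun a => e (s a)) a
        (Matrix.toLin e e (Matrix.diagonal x) (e (s a)))) = x (s a) • T (fun a => e (s a)) := by
      intro a
      rw [hX, T.map_update_smul, update_eq_self]
    rw [Finset.sum_congr rfl fun a _ => h1 a, ← Finset.sum_smul]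
    by_cases hT : T (fun a => e (s a)) = 0
    · rw [hT, smul_zero]
    · rw [h s hT, zero_smul]
  rw [mem_kill]
  intro v
  rw [← der_apply, h0, zero_apply]

end TGR
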