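import Pool.Agent.Lib.MP_021685_agTG.G0

/-! LEAF GC (easy+, three small theorems, Mathlib only).  Conjugation.

PROOF of `kill_conj`.  Let `v' a = ρ g⁻¹ (v a)`, so `v a = ρ g (v' a)`, and `(ρ g * X * ρ g⁻¹) (v a) = ρ g (X (v' a))`.  For `w = σ g w'` (`w' = σ g⁻¹ w`): `T (update v a (ρ g (X (v' a)))) (σ g w') = (μ g ^ i) * T (update v' a (X (v' a))) w'`
by `hT g hg` (the function `b ↦ ρ g (update v' a (X (v' a)) b)` is `update v a (ρ g (X (v' a)))`).  Sum over `a`.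
PROOF of `sp_conj`.  `ψ (ρ g (X (ρ g⁻¹ u))) v = μ g * ψ (X (ρ g⁻¹ u)) (ρ g⁻¹ v)` (`hψ` with `v = ρ g (ρ g⁻¹ v)`), in the same way the second term, and `hX (ρ g⁻¹ u) (ρ g⁻¹ v)`.
PROOF of `stable_map`.  For `X ∈ alg T ψ` and `u ∈ S`: `X (ρ g u) = ρ g (Y u)` with `Y = ρ g⁻¹ * X * ρ g`, which is in `alg T ψ` by the first two theorems for `g⁻¹` (`inv_inv`). -/

set_option autoImplicit false

namespace TGR

open Module Function

variable {G H W : Type} [Group G] [AddCommGroup H] [Module ℂ H] [AddCommGroup W] [Module ℂ W]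
  {ρ : Representation ℂ G H} {σ : Representation ℂ G W} {μ : G →* ℂˣ} {G' : Subgroup G} {k : ℕ} {i : ℤ}
  {T : MultilinearMap ℂ (fun _ : Fin k => H) (W →ₗ[ℂ] ℂ)} {ψ : H →ₗ[ℂ] H →ₗ[ℂ] ℂ}

theorem kill_conj (hT : IsTate ρ σ μ G' i T) {g : G} (hg : g ∈ G') {X : End ℂ H} (hX : X ∈ kill T) :
    ρ g * X * ρ g⁻¹ ∈ kill T := by
  rw [mem_kill] at hX ⊢
  intro v
  obtain ⟨v', hv'⟩ : ∃ v' : Fin k → H, v' = fun a => ρ g⁻¹ (v a) := ⟨_, rfl⟩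
  have hv : ∀ a, ρ g (v' a) = v a := fun a => by rw [hv', ρ.self_inv_apply]
  refine LinearMap.ext fun w => ?_
  rw [LinearMap.sum_apply, LinearMap.zero_apply]
  have h1 : ∀ a, T (update v a ((ρ g * X * ρ g⁻¹) (v a))) w =
      (μ g ^ i : ℂˣ) * T (update v' a (X (v' a))) (σ g⁻¹ w) := by
    intro a
    have h2 := hT g hg (update v' a (X (v' a))) (σ g⁻¹ w)
    rw [σ.self_inv_apply] at h2
    rw [← h2]
    congr 2
    funext b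
    by_cases hb : b = a
    · subst hb
      rw [update_self, update_self, hv']
      rfl
    · rw [update_of_ne hb, update_of_ne hb, hv]
  rw [Finset.sum_congr rfl fun a _ => h1 a, ← Finset.mul_sum]
  have h3 := congrArg (fun f => f (σ g⁻¹ w)) (hX v')
  simp only [LinearMap.sum_apply, LinearMap.zero_apply] at h3
  rw [h3, mul_zero]

theorem sp_conj (hψ : ∀ g u v, ψ (ρ g u) (ρ g v) = μ g * ψ u v) (g : G) {X : End ℂ H} (hX : X ∈ sp ψ) :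
    ρ g * X * ρ g⁻¹ ∈ sp ψ := by
  rw [mem_sp] at hX ⊢
  intro u v
  have h1 := hψ g (X (ρ g⁻¹ u)) (ρ g⁻¹ v)
  have h2 := hψ g (ρ g⁻¹ u) (X (ρ g⁻¹ v))
  rw [ρ.self_inv_apply] at h1 h2
  have h3 := hX (ρ g⁻¹ u) (ρ g⁻¹ v)
  show ψ (ρ g (X (ρ g⁻¹ u))) v + ψ u (ρ g (X (ρ g⁻¹ v))) = 0
  rw [h1, h2, ← mul_add, h3, mul_zero]

theorem stable_map (hT : IsTate ρ σ μ G' i T) (hψ : ∀ g u v, ψ (ρ g u) (ρ g v) = μ g * ψ u v) {g : G} (hg : g ∈ G')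
    {S : Submodule ℂ H} (hS : IsStable (alg T ψ) S) : IsStable (alg T ψ) (S.map (ρ g)) := by
  rintro X ⟨hX1, hX2⟩ v ⟨u, hu, rfl⟩
  have h1 := kill_conj hT (G'.inv_mem hg) hX1
  have h2 := sp_conj hψ g⁻¹ hX2
  rw [inv_inv] at h1 h2
  refine ⟨(ρ g⁻¹ * X * ρ g) u, hS _ ⟨h1, h2⟩ u hu, ?_⟩
  show ρ g (ρ g⁻¹ (X (ρ g u))) = X (ρ g u)
  rw [ρ.self_inv_apply]

end TGR
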