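import Pool.Agent.Lib.MP_802513_agHI.HA
import Pool.Agent.Lib.MP_021685_agTI.TD
import Pool.Agent.Lib.MP_021685_agTWF.WD
import Pool.Agent.Lib.MP_021685_agTAR.RD

/-! Definitions used in the statement of `MP_021685_ag.AlmostAllLifts` (number fields: the abelian varieties with one
reduction in the one hundred per cent).  `frobPoly` is defined in `MP_021685_agTI/TD.lean`, `IsFrobField` in
`MP_802513_agHI/HA.lean`, `IsIndep` in `MP_021685_agTWF/WD.lean`, `Small` (roots of products of algebraic numbers of small degree, or
of small angle rank, or with foreign splitting field) in `MP_021685_agTAR/RD.lean`.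

Dictionary.  `K` is a number field, `G` its absolute Galois group, `A` an abelian variety and `Z` a smooth projective variety
over `K`, `H = H₁ (A)`, `W` is the dual of the cohomology of `Z` in some degree (`ℓ`-adic, over `ℂ ⊇ ℚ_ℓ`), with the actions `ρ`
and `σ` of `G`; `μ` is the cyclotomic character, `φ` a Frobenius element of a place of `K` with residue field of `Q` elements
(and `μ φ = Q`), `P` its characteristic polynomial on `H` (for a place of good reduction of `A`: the one of the Frobenius
of the reduction).  A class on `A ^ N × Z` is a sum of forms `T` on `H ^ k × W`. -/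

set_option autoImplicit false

namespace TGR

open Polynomial Module Function

section

variable {G H W : Type} [Group G] [AddCommGroup H] [Module ℂ H] [AddCommGroup W] [Module ℂ W]
  (ρ : Representation ℂ G H) (σ : Representation ℂ G W) (μ : G →* ℂˣ)

/-- There is a non-degenerate alternating form `ψ` on `H` with `ψ (g u, g v) = μ (g) ψ (u, v)` (the Weil pairing for a
polarization). -/
def HasForm : Prop :=
  ∃ ψ : H →ₗ[ℂ] H →ₗ[ℂ] ℂ, (∀ u, ψ u u = 0) ∧ (∀ u, (∀ v, ψ u v = 0) → u = 0) ∧
    ∀ g u v, ψ (ρ g u) (ρ g v) = μ g * ψ u v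

/-- `T` is a Tate form for the subgroup `G'` (over the corresponding extension of `K`): a `k`-linear form on `H` with values in
the dual of `W` with `T (g v, g w) = μ (g) ^ i T (v, w)` for `g` in `G'`. -/
def IsTate (G' : Subgroup G) (i : ℤ) {k : ℕ} (T : MultilinearMap ℂ (fun _ : Fin k => H) (W →ₗ[ℂ] ℂ)) : Prop :=
  ∀ g ∈ G', ∀ v w, T (fun a => ρ g (v a)) (σ g w) = (μ g ^ i : ℂˣ) * T v w

/-- `β` is a Tate pairing for the subgroup `G'`.  (For an abelian variety these are, by the theorem of Faltings, the
combinations of classes of divisors.) -/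
def IsPairing (G' : Subgroup G) (β : H →ₗ[ℂ] H →ₗ[ℂ] ℂ) : Prop :=
  ∀ g ∈ G', ∀ u v, β (ρ g u) (ρ g v) = μ g * β u v

/-- `T (v, w) = χ (w) ∏ β j (v .., v ..)`, with Tate pairings `β j` (the arguments are matched in `m` pairs, `k = 2 m`) and a
Tate form `χ` on `W`. -/
def IsProduct (G' : Subgroup G) (i : ℤ) {k : ℕ} (T : MultilinearMap ℂ (fun _ : Fin k => H) (W →ₗ[ℂ] ℂ)) : Prop :=
  ∃ (m : ℕ) (e : Fin m ⊕ Fin m ≃ Fin k) (β : Fin m → H →ₗ[ℂ] H →ₗ[ℂ] ℂ) (χ : W →ₗ[ℂ] ℂ),
    (∀ j, IsPairing ρ μ G' (β j)) ∧ (∀ g ∈ G', ∀ w, χ (σ g w) = (μ g ^ (i - m) : ℂˣ) * χ w) ∧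
      ∀ v w, T v w = (∏ j, β j (v (e (Sum.inl j))) (v (e (Sum.inr j)))) * χ w

end

/-- For all groups `G` with actions on `H`, which preserves a non-degenerate alternating form up to a character `μ`, and on `W`:
if one element `φ` with `μ (φ) = Q` has the characteristic polynomial `P` on `H`, and all its eigenvalues on `W` are roots of
products of algebraic numbers of degree less than `2 g`, or of angle rank less than `g`, or with a splitting field without root
of `P`, then every Tate form over a finite extension (for a subgroup `G'` of finite index) is a linear combination of products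
of Tate pairings on `H` and of one Tate form on `W`, over a finite extension.  (`W = ℂ` with the trivial action: every Tate form
on `H` is a linear combination of products of Tate pairings.) -/
def Full (Q : ℕ) (P : ℤ[X]) (g : ℕ) : Prop :=
  ∀ (G H W : Type) [Group G] [AddCommGroup H] [Module ℂ H] [FiniteDimensional ℂ H] [AddCommGroup W] [Module ℂ W]
    [FiniteDimensional ℂ W] (ρ : Representation ℂ G H) (σ : Representation ℂ G W) (μ : G →* ℂˣ), HasForm ρ μ →
      ∀ φ : G, (μ φ : ℂ) = Q → (ρ φ).charpoly = P.map (Int.castRingHom ℂ) →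
        (∀ y, End.HasEigenvalue (σ φ) y → TAR.Small Q P g y) →
          ∀ (G' : Subgroup G) (k : ℕ) (i : ℤ) (T : MultilinearMap ℂ (fun _ : Fin k => H) (W →ₗ[ℂ] ℂ)),
            G'.FiniteIndex → IsTate ρ σ μ G' i T → ∃ G'' : Subgroup G, G''.FiniteIndex ∧
              T ∈ Submodule.span ℂ {T' : MultilinearMap ℂ (fun _ : Fin k => H) (W →ₗ[ℂ] ℂ) |
                IsProduct ρ σ μ G'' i T'}

/-- `P` is monic without multiple roots, and its complex roots are the conjugates of Weil numbers `a i k` for `Q` in the fields
`E i` (finitely many in each field, multiplicatively independent modulo `Q`): the characteristic polynomials of the Frobenius of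
the abelian varieties over a field with `Q` elements which are isogenous to products of simple abelian varieties with
commutative endomorphism algebras `Q(a i k)`. -/
def IsOver (Q : ℕ) {r : ℕ} (E : Fin r → Type) [∀ i, Field (E i)] (P : ℤ[X]) : Prop :=
  P.Monic ∧ (P.map (Int.castRingHom ℂ)).Separable ∧ ∃ (J : Fin r → Type) (_ : ∀ i, Fintype (J i)) (a : ∀ i, J i → E i),
    (∀ (i : Fin r) (k : J i) (φ : E i →+* ℂ), φ (a i k) * starRingEnd ℂ (φ (a i k)) = (Q : ℂ)) ∧
    (∀ i, TWF.IsIndep Q (a i)) ∧
    ∀ z : ℂ, aeval z P = 0 ↔ ∃ (i : Fin r) (k : J i) (φ : E i →+* ℂ), φ (a i k) = z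

/-- The property of the polynomials `t i`, for all number fields `E i` generated by roots of the `frobPoly q (t i)`:

* the `E i` are CM fields of degree `2 g`, and the product of the `frobPoly q (t i)` is one of the polynomials over the `E i`
  for `q`;
* for all `Q > 1` and all polynomials `P` over the `E i` for `Q`: for every abelian variety `A` over a number field with a
  place with Frobenius polynomial `P`, all Tate classes on the powers of `A` are combinations of products of Tate classes of
  degree one, and for all varieties `Z` with small or foreign Frobenius eigenvalues at the place there are no new Tate classes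
  on the products of the powers of `A` and of `Z` (`Full Q P g`). -/
def AllLift (q g : ℕ) {r : ℕ} (t : Fin r → ℤ[X]) : Prop :=
  ∀ (E : Fin r → Type) [∀ i, Field (E i)] [∀ i, NumberField (E i)], (∀ i, HIA.IsFrobField q (t i) (E i)) →
    (∀ i, NumberField.IsCMField (E i) ∧ finrank ℚ (E i) = 2 * g) ∧ IsOver q E (∏ i, TI.frobPoly q (t i)) ∧
    ∀ (Q : ℕ) (P : ℤ[X]), 1 < Q → IsOver Q E P → Full Q P g

end TGR
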