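import Pool.Agent.Lib.MP_021685_agTG.G0

/-! LEAF GF (easy+, two theorems, Mathlib only).  Subspaces stable under the odd diagonal endomorphisms.

PROOF of `coord_mem`.  Let `x = Pi.single i 1 - Pi.single (bar i) 1` (odd), `D = toLin e e (diagonal x)`.  `(1/2) • (D (D v) + D v) = e.repr v i • e i` (compare the coordinates: `x m ^ 2 + x m` is `2` for `m = i` and `0` otherwise), and it
is in `S`.
PROOF of `finite_stable`.  The map `S ↦ {i | e i ∈ S}` to `Set ι` (finite) is injective on this set (`Set.Finite.of_injOn` or `Set.Finite.of_finite_image`): `S` is the span of the `e i` in `S`, as `v = ∑ i, e.repr v i • e i` with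
`e.repr v i • e i ∈ S` by `coord_mem`, so `e i ∈ S` if `e.repr v i ≠ 0`. -/

set_option autoImplicit false

namespace TGR

open Module Function

variable {H ι : Type} [AddCommGroup H] [Module ℂ H] [Fintype ι] [DecidableEq ι] {bar : ι → ι}

private theorem GF_repr (e : Basis ι ℂ H) (x : ι → ℂ) (v : H) (m : ι) :
    e.repr (Matrix.toLin e e (Matrix.diagonal x) v) m = x m * e.repr v m := by
  have h := LinearMap.toMatrix_mulVec_repr e e (Matrix.toLin e e (Matrix.diagonal x)) v
  rw [LinearMap.toMatrix_toLin] at h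
  have h2 := congrFun h m
  rw [Matrix.mulVec_diagonal] at h2
  exact h2.symm

theorem coord_mem (hbb : ∀ i, bar (bar i) = i) (hbn : ∀ i, bar i ≠ i) (e : Basis ι ℂ H) {S : Submodule ℂ H}
    (hS : ∀ x : ι → ℂ, (∀ i, x (bar i) = - x i) → ∀ v ∈ S, Matrix.toLin e e (Matrix.diagonal x) v ∈ S) {v : H}
    (hv : v ∈ S) (i : ι) : e.repr v i • e i ∈ S := by
  set x : ι → ℂ := fun m => if m = i then 1 else if m = bar i then -1 else 0 with hx
  have hxi : x i = 1 := if_pos rfl
  have hxb : x (bar i) = -1 := (if_neg (hbn i)).trans (if_pos rfl)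
  have hx0 : ∀ m, m ≠ i → m ≠ bar i → x m = 0 := fun m h1 h2 => (if_neg h1).trans (if_neg h2)
  have hodd : ∀ m, x (bar m) = - x m := by
    intro m
    by_cases h1 : m = i
    · rw [h1, hxb, hxi]
    · by_cases h2 : m = bar i
      · rw [h2, hbb, hxi, hxb, neg_neg]
      · rw [hx0 m h1 h2, hx0 (bar m) (fun h => h2 (by rw [← h, hbb]))
          (fun h => h1 (by rw [← hbb m, h, hbb])), neg_zero]
  have h1 := hS x hodd v hv
  have h2 := hS x hodd _ h1
  have h3 := S.smul_mem (1 / 2 : ℂ) (S.add_mem h2 h1)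
  have h4 : (1 / 2 : ℂ) • (Matrix.toLin e e (Matrix.diagonal x) (Matrix.toLin e e (Matrix.diagonal x) v) +
      Matrix.toLin e e (Matrix.diagonal x) v) = e.repr v i • e i := by
    refine e.ext_elem fun m => ?_
    rw [map_smul, map_smul, map_add, Finsupp.smul_apply, Finsupp.smul_apply, Finsupp.add_apply, GF_repr, GF_repr,
      Basis.repr_self, smul_eq_mul, smul_eq_mul]
    by_cases h5 : m = i
    · rw [h5, hxi, Finsupp.single_eq_same]
      ring
    · rw [Finsupp.single_eq_of_ne h5]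
      by_cases h6 : m = bar i
      · rw [h6, hxb]
        ring
      · rw [hx0 m h5 h6]
        ring
  rw [h4] at h3
  exact h3

private theorem GF_le (hbb : ∀ i, bar (bar i) = i) (hbn : ∀ i, bar i ≠ i) (e : Basis ι ℂ H) {S S' : Submodule ℂ H}
    (hS : ∀ x : ι → ℂ, (∀ i, x (bar i) = - x i) → ∀ v ∈ S, Matrix.toLin e e (Matrix.diagonal x) v ∈ S)
    (h : ∀ i, e i ∈ S → e i ∈ S') : S ≤ S' := by
  intro v hv
  rw [← e.sum_repr v]
  refine S'.sum_mem fun i _ => ?_
  have h1 := coord_mem hbb hbn e hS hv i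
  by_cases h0 : e.repr v i = 0
  · rw [h0, zero_smul]
    exact S'.zero_mem
  · refine S'.smul_mem _ (h i ?_)
    exact (S.smul_mem_iff h0).1 h1

theorem finite_stable (hbb : ∀ i, bar (bar i) = i) (hbn : ∀ i, bar i ≠ i) (e : Basis ι ℂ H)
    {A : Submodule ℂ (End ℂ H)}
    (hA : ∀ x : ι → ℂ, (∀ i, x (bar i) = - x i) → Matrix.toLin e e (Matrix.diagonal x) ∈ A) :
    {S : Submodule ℂ H | IsStable A S}.Finite := by
  refine Set.Finite.of_finite_image (f := fun S : Submodule ℂ H => {i | e i ∈ S}) (Set.toFinite _) ?_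
  intro S hS S' hS' h
  refine le_antisymm (GF_le hbb hbn e (fun x hx v hv => hS _ (hA x hx) v hv) fun i hi => ?_)
    (GF_le hbb hbn e (fun x hx v hv => hS' _ (hA x hx) v hv) fun i hi => ?_)
  · have h1 : i ∈ {i | e i ∈ S} := hi
    have h2 : {i | e i ∈ S} = {i | e i ∈ S'} := h
    rw [h2] at h1
    exact h1
  · have h1 : i ∈ {i | e i ∈ S'} := hi
    have h2 : {i | e i ∈ S} = {i | e i ∈ S'} := h
    rw [← h2] at h1
    exact h1

end TGR
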