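import Mathlib

/-! LEAF GG (medium, Mathlib only).  A subgroup of finite index which fixes finitely many subspaces.

PROOF.  `G'` acts on the finite type `Σ = {S // S ∈ Sf}` by `S ↦ S.map (ρ g)` (`Submodule.map_id`, `Submodule.map_comp`, `map_mul`, `map_one`): a homomorphism `f : G' →* Equiv.Perm Σ` (the inverse of `g` is the action of `g⁻¹`).  Its kernel
has finite index in `G'` (`Subgroup.finiteIndex_ker`, the range is finite), and `G'' = f.ker.map G'.subtype` has finite index in `G` (`Subgroup.index_map_subtype`, or `Subgroup.relIndex_mul_index`: the index is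
`[G' : ker] * [G : G']`, not zero).  For `g ∈ G''` and `S ∈ Sf` the equation `f g ⟨S, _⟩ = ⟨S, _⟩` says `S.map (ρ g) = S`. -/

set_option autoImplicit false

namespace TGR

theorem exists_fix {G H : Type} [Group G] [AddCommGroup H] [Module ℂ H] (ρ : Representation ℂ G H) (G' : Subgroup G)
    (hG : G'.FiniteIndex) (Sf : Set (Submodule ℂ H)) (hfin : Sf.Finite)
    (hst : ∀ g ∈ G', ∀ S ∈ Sf, S.map (ρ g) ∈ Sf) :
    ∃ G'' : Subgroup G, G''.FiniteIndex ∧ G'' ≤ G' ∧ ∀ g ∈ G'', ∀ S ∈ Sf, S.map (ρ g) = S := by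
  have hone : ∀ S : Submodule ℂ H, S.map (ρ 1) = S := by
    intro S
    rw [map_one]
    exact Submodule.map_id S
  have hmul : ∀ (g h : G) (S : Submodule ℂ H), S.map (ρ (g * h)) = (S.map (ρ h)).map (ρ g) := by
    intro g h S
    rw [map_mul]
    exact Submodule.map_comp (ρ h) (ρ g) S
  let inst : MulAction G' Sf :=
    { smul := fun g S => ⟨S.1.map (ρ (g : G)), hst g g.2 S.1 S.2⟩
      one_smul := fun S => Subtype.ext (hone S.1)
      mul_smul := fun g h S => Subtype.ext (hmul g h S.1) }
  have hfS : Finite Sf := hfin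
  have hker : (MulAction.toPermHom G' Sf).ker.FiniteIndex := Subgroup.finiteIndex_ker _
  refine ⟨(MulAction.toPermHom G' Sf).ker.map G'.subtype, ⟨?_⟩, Subgroup.map_subtype_le _, ?_⟩
  · rw [Subgroup.index_map_subtype]
    exact mul_ne_zero hker.index_ne_zero hG.index_ne_zero
  · rintro g hg S hS
    obtain ⟨g', hg', rfl⟩ := Subgroup.mem_map.1 hg
    have h1 : MulAction.toPermHom G' Sf g' = 1 := MonoidHom.mem_ker.1 hg'
    have h2 : (MulAction.toPermHom G' Sf g') ⟨S, hS⟩ = ⟨S, hS⟩ := by
      rw [h1]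
      rfl
    exact congrArg Subtype.val h2

end TGR
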