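import Pool.Agent.Lib.MP_021685_agTG.G0

/-! LEAF GI (easy+, Mathlib only).  The blocks of an endomorphism which maps the stable subspaces to themselves.

PROOF.  Let `S = Submodule.span ℂ (e '' {m | r m l})`.  It is stable under `A`: for `X ∈ A` and `r m l`, `X (e m) = ∑ k, toMatrix e e X k m • e k` and the coefficient is not zero only if `r k m`, so `r k l` (`Submodule.span_induction`).
So `g (e l) ∈ S` by `hg` (`e l ∈ S`).  An element of `S` has zero coordinate at every `k` without `r k l` (`Basis.mem_span_image`, or `Submodule.span_induction`), and `toMatrix e e g k l = e.repr (g (e l)) k` (`LinearMap.toMatrix_apply`). -/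

set_option autoImplicit false

namespace TGR

open Module Function

private def GI_S {H ι : Type} [AddCommGroup H] [Module ℂ H] (e : Basis ι ℂ H) (r : Setoid ι) (l : ι) :
    Submodule ℂ H where
  carrier := {v | ∀ k, ¬ r k l → e.repr v k = 0}
  zero_mem' := by
    intro k _
    rw [map_zero]
    rfl
  add_mem' := by
    intro a b ha hb k hk
    rw [map_add, Finsupp.add_apply, ha k hk, hb k hk, add_zero]
  smul_mem' := by
    intro c a ha k hk
    rw [map_smul, Finsupp.smul_apply, ha k hk, smul_zero]

theorem block {H ι : Type} [AddCommGroup H] [Module ℂ H] [Fintype ι] [DecidableEq ι] (e : Basis ι ℂ H) (r : Setoid ι)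
    {A : Submodule ℂ (End ℂ H)} (hA : ∀ X ∈ A, ∀ k l, LinearMap.toMatrix e e X k l ≠ 0 → r k l) {g : End ℂ H}
    (hg : ∀ S, IsStable A S → S.map g ≤ S) {k l : ι} (hne : LinearMap.toMatrix e e g k l ≠ 0) : r k l := by
  by_contra hkl
  have hst : IsStable A (GI_S e r l) := by
    intro X hX v hv m hm
    have h1 : e.repr (X v) m = ∑ n, LinearMap.toMatrix e e X m n * e.repr v n := by
      have h2 := congrFun (LinearMap.toMatrix_mulVec_repr e e X v) m
      rw [← h2]
      rfl
    rw [h1]
    refine Finset.sum_eq_zero fun n _ => ?_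
    by_cases hn : r n l
    · have h3 : LinearMap.toMatrix e e X m n = 0 := by
        by_contra h4
        exact hm (r.trans (hA X hX m n h4) hn)
      rw [h3, zero_mul]
    · rw [hv n hn, mul_zero]
  have hl : e l ∈ GI_S e r l := by
    intro m hm
    have h1 : m ≠ l := by
      rintro rfl
      exact hm (r.refl m)
    rw [Basis.repr_self, Finsupp.single_eq_of_ne h1]
  have h2 : g (e l) ∈ GI_S e r l := hg _ hst (Submodule.mem_map_of_mem hl)
  apply hne
  rw [LinearMap.toMatrix_apply]
  exact h2 k hkl

end TGR
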