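import Pool.Agent.Lib.MP_021685_agTG.G0

/-! LEAF GJ (medium-; similar to the leaf MH, TLL_MH.lean in the store).  The pairings of the classes are preserved.

PROOF.  Both sides are bilinear in `u`, `v`, so it is enough to take `u = e k`, `v = e l` (`Basis.ext`).  With `M = toMatrix e e g`: `pair f (g (e k)) (g (e l)) = ∑ i, if φ i = f then ε i * (M i k * M (bar i) l) else 0` (`pair_apply`,
`Basis.coord_apply`, `LinearMap.toMatrix_apply`).  If `M i k ≠ 0` then `φ i = φ k`, so this is `if φ k = f then ∑ i, ε i * (M i k * M (bar i) l) else 0`, and the sum is `ψ (g (e k)) (g (e l))` (expand `g (e k) = ∑ i, M i k • e i` and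
`h.form`) `= m * ψ (e k) (e l)`.  And `pair f (e k) (e l) = if φ k = f then ψ (e k) (e l) else 0` (the same formula for `g = 1`). -/

set_option autoImplicit false

namespace TGR

open Module Function TLL

private theorem GJ_form {H ι : Type} [AddCommGroup H] [Module ℂ H] [Fintype ι] [DecidableEq ι] {bar : ι → ι}
    {ε : ι → ℂ} {e : Basis ι ℂ H} {ψ : H →ₗ[ℂ] H →ₗ[ℂ] ℂ} (h : Nf bar ε e ψ) (u v : H) :
    ψ u v = ∑ i, ε i * (e.coord i u * e.coord (bar i) v) := by
  have hc1 : ∀ k l, e.coord k (e l) = if k = l then 1 else 0 := by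
    intro k l
    rw [Basis.coord_apply, Basis.repr_self, Finsupp.single_apply]
    simp only [eq_comm]
  have h0 : ψ = pair bar ε (fun _ : ι => ()) e () := by
    refine LinearMap.ext_basis e e fun k l => ?_
    rw [pair_apply, Finset.sum_eq_single k, h.form]
    · have h5 : (if k = k then (1 : ℂ) else 0) = 1 := if_pos rfl
      rw [hc1, hc1, h5, one_mul, if_pos rfl]
      by_cases h4 : l = bar k
      · have h6 : (if bar k = l then (1 : ℂ) else 0) = 1 := if_pos h4.symm
        have h7 : (if l = bar k then ε k else 0) = ε k := if_pos h4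
        rw [h6, h7, mul_one]
      · have h6 : (if bar k = l then (1 : ℂ) else 0) = 0 := if_neg fun h' => h4 h'.symm
        have h7 : (if l = bar k then ε k else 0) = 0 := if_neg h4
        rw [h6, h7, mul_zero]
    · intro i _ hi
      have h4 : (if i = k then (1 : ℂ) else 0) = 0 := if_neg hi
      rw [hc1, h4, zero_mul, mul_zero, ite_self]
    · intro h'
      exact absurd (Finset.mem_univ _) h'
  rw [h0, pair_apply]
  exact Finset.sum_congr rfl fun i _ => if_pos rfl

private theorem GJ_key {H ι Φ : Type} [AddCommGroup H] [Module ℂ H] [Fintype ι] [DecidableEq ι] [DecidableEq Φ]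
    {bar : ι → ι} {ε : ι → ℂ} {e : Basis ι ℂ H} {ψ : H →ₗ[ℂ] H →ₗ[ℂ] ℂ} (h : Nf bar ε e ψ) {φ : ι → Φ} {u : H} {k : ι}
    (hu : ∀ i, e.coord i u ≠ 0 → φ i = φ k) (f : Φ) (v : H) :
    pair bar ε φ e f u v = if φ k = f then ψ u v else 0 := by
  rw [pair_apply]
  by_cases hf : φ k = f
  · rw [if_pos hf, GJ_form h]
    refine Finset.sum_congr rfl fun i _ => ?_
    by_cases h0 : e.coord i u = 0
    · rw [h0, zero_mul, mul_zero, ite_self]
    · exact if_pos ((hu i h0).trans hf)
  · rw [if_neg hf]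
    refine Finset.sum_eq_zero fun i _ => ?_
    by_cases h0 : e.coord i u = 0
    · rw [h0, zero_mul, mul_zero, ite_self]
    · exact if_neg fun h1 => hf ((hu i h0).symm.trans h1)

theorem pair_inv {H ι Φ : Type} [AddCommGroup H] [Module ℂ H] [Fintype ι] [DecidableEq ι] [DecidableEq Φ]
    {bar : ι → ι} {ε : ι → ℂ} {e : Basis ι ℂ H} {ψ : H →ₗ[ℂ] H →ₗ[ℂ] ℂ} (h : Nf bar ε e ψ) {g : End ℂ H} {m : ℂ}
    (hψ : ∀ u v, ψ (g u) (g v) = m * ψ u v) {φ : ι → Φ}
    (hφ : ∀ k l, LinearMap.toMatrix e e g k l ≠ 0 → φ k = φ l) (f : Φ) (u v : H) :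
    pair bar ε φ e f (g u) (g v) = m * pair bar ε φ e f u v := by
  have h1 : ∀ k i, e.coord i (g (e k)) ≠ 0 → φ i = φ k := by
    intro k i h0
    refine hφ i k ?_
    rw [LinearMap.toMatrix_apply]
    exact h0
  have h2 : ∀ k i, e.coord i (e k) ≠ 0 → φ i = φ k := by
    intro k i h0
    by_cases hik : i = k
    · rw [hik]
    · refine absurd ?_ h0
      rw [Basis.coord_apply, Basis.repr_self, Finsupp.single_apply]
      exact if_neg fun h' => hik h'.symm
  have hB : (pair bar ε φ e f).compl₁₂ g g = m • pair bar ε φ e f := by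
    refine LinearMap.ext_basis e e fun k l => ?_
    show pair bar ε φ e f (g (e k)) (g (e l)) = m * pair bar ε φ e f (e k) (e l)
    rw [GJ_key h (h1 k), GJ_key h (h2 k), hψ]
    split_ifs
    · rfl
    · rw [mul_zero]
  exact LinearMap.congr_fun (LinearMap.congr_fun hB u) v

end TGR
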