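import Pool.Agent.Lib.MP_021685_agTG.G0
import Pool.Agent.Lib.MP_021685_agTL2.ZL

/-! LEAF GL (medium-; the same as the leaf MK2, TLL_MK2.lean in the store, for a group in place of a Lie algebra).  From the slices to the form.

PROOF.  Every `τ ∈ Pr` satisfies `τ (fun a => ρ g (v a)) = (μ g) ^ (k / 2) * τ v` for `g ∈ G'` (product of the pairings: `(μ g) ^ m`, `k = 2 m` by `Fintype.card_congr r`), so every `α` in the span of `Pr` does
(`Submodule.span_induction`).  `TLF.exists_split` (`MP_021685_agTL2/ZL.lean`) for the span and the linear map `slice T` gives linearly independent `α x` in the span, linear forms `χ x` on `W` with `slice T w = ∑ x, χ x w • α x`.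
`hT g hg v w` reads `∑ x, (χ x (σ g w) * (μ g) ^ (k / 2) - (μ g ^ i) * χ x w) * α x v = 0` for all `v`, so `χ x (σ g w) * (μ g) ^ (k / 2) = (μ g ^ i) * χ x w` (`Fintype.linearIndependent_iff`), that is
`χ x (σ g w) = (μ g ^ (i - (k / 2 : ℕ)) : ℂˣ) * χ x w` (`μ g` is a unit).  `T = ∑ x, (LinearMap.toSpanSingleton ℂ (W →ₗ[ℂ] ℂ) (χ x)).compMultilinearMap (α x)`, and for each `x` the linear map
`α ↦ (toSpanSingleton (χ x)).compMultilinearMap α` maps `Pr` into the set of the products (`h3`; `m = k / 2`), hence the span of `Pr` into its span. -/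

set_option autoImplicit false

namespace TGR

open Module Function TLL

private theorem GL_msum {M N κ : Type*} [AddCommGroup M] [Module ℂ M] [AddCommGroup N] [Module ℂ N] {s : ℕ}
    (S : Finset κ) (f : κ → MultilinearMap ℂ (fun _ : Fin s => M) N) (v : Fin s → M) :
    (∑ j ∈ S, f j) v = ∑ j ∈ S, f j v := by
  classical
  induction S using Finset.induction_on with
  | empty => rfl
  | insert a S ha ih => rw [Finset.sum_insert ha, Finset.sum_insert ha, MultilinearMap.add_apply, ih]

theorem mem_of_slices {G H W : Type} [Group G] [AddCommGroup H] [Module ℂ H] [AddCommGroup W] [Module ℂ W]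
    [FiniteDimensional ℂ W] {ρ : Representation ℂ G H} {σ : Representation ℂ G W} {μ : G →* ℂˣ} {G' : Subgroup G}
    {k : ℕ} {i : ℤ} {T : MultilinearMap ℂ (fun _ : Fin k => H) (W →ₗ[ℂ] ℂ)} (hT : IsTate ρ σ μ G' i T)
    (Pr : Set (MultilinearMap ℂ (fun _ : Fin k => H) ℂ)) (h1 : ∀ w, slice T w ∈ Submodule.span ℂ Pr)
    (h3 : ∀ τ ∈ Pr, ∃ (m : ℕ) (r : Fin m ⊕ Fin m ≃ Fin k) (β : Fin m → H →ₗ[ℂ] H →ₗ[ℂ] ℂ),
      (∀ j, IsPairing ρ μ G' (β j)) ∧ ∀ v, τ v = ∏ j, β j (v (r (Sum.inl j))) (v (r (Sum.inr j)))) :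
    T ∈ Submodule.span ℂ {T' : MultilinearMap ℂ (fun _ : Fin k => H) (W →ₗ[ℂ] ℂ) | IsProduct ρ σ μ G' i T'} := by
  classical
  have hsp : ∀ α ∈ Submodule.span ℂ Pr, ∀ g ∈ G', ∀ v : Fin k → H,
      α (fun a => ρ g (v a)) = (μ g : ℂ) ^ (k / 2) * α v := by
    intro α hα g hg v
    induction hα using Submodule.span_induction with
    | mem τ hτ =>
      obtain ⟨m, e, β, hβ, hτv⟩ := h3 τ hτ
      have hm : k / 2 = m := by
        have h4 := Fintype.card_congr e
        rw [Fintype.card_sum, Fintype.card_fin, Fintype.card_fin] at h4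
        omega
      rw [hτv, hτv, hm, Finset.prod_congr rfl fun j _ => hβ j g hg _ _, Finset.prod_mul_distrib,
        Finset.prod_const, Finset.card_univ, Fintype.card_fin]
    | zero =>
      simp only [MultilinearMap.zero_apply, mul_zero]
    | add x y _ _ hx hy =>
      simp only [MultilinearMap.add_apply, mul_add]
      rw [hx, hy]
    | smul r x _ hx =>
      simp only [MultilinearMap.smul_apply, smul_eq_mul]
      linear_combination r * hx
  obtain ⟨r, α, χ, hα, hαS, hsum⟩ := TLF.exists_split (Submodule.span ℂ Pr) (slice T) h1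
  have hval : ∀ v w, T v w = ∑ j, χ j w * α j v := by
    intro v w
    have h1 := congrArg (fun f => f v) (hsum w)
    simp only [slice_apply, GL_msum, MultilinearMap.smul_apply, smul_eq_mul] at h1
    exact h1
  have hsl : ∀ g ∈ G', ∀ (v : Fin k → H) w, T (fun a => ρ g (v a)) w = (μ g : ℂ) ^ (k / 2) * T v w := by
    intro g hg v w
    have h4 := hsp (slice T w) (h1 w) g hg v
    simp only [slice_apply] at h4
    exact h4
  have hχ0 : ∀ j, ∀ g ∈ G', ∀ w, (μ g : ℂ) ^ (k / 2) * χ j (σ g w) = ((μ g ^ i : ℂˣ) : ℂ) * χ j w := by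
    intro j g hg w
    have h1 : ∑ l, ((μ g : ℂ) ^ (k / 2) * χ l (σ g w) - ((μ g ^ i : ℂˣ) : ℂ) * χ l w) • α l = 0 := by
      refine MultilinearMap.ext fun v => ?_
      have h2 := hT g hg v w
      rw [hsl g hg v (σ g w), hval, hval, Finset.mul_sum, Finset.mul_sum, ← sub_eq_zero,
        ← Finset.sum_sub_distrib] at h2
      rw [GL_msum, MultilinearMap.zero_apply, ← h2]
      refine Finset.sum_congr rfl fun l _ => ?_
      rw [MultilinearMap.smul_apply, smul_eq_mul]
      ring
    have h2 := Fintype.linearIndependent_iff.1 hα _ h1 j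
    exact sub_eq_zero.1 h2
  have hχ : ∀ j, ∀ g ∈ G', ∀ w, χ j (σ g w) = ((μ g ^ (i - (k / 2 : ℕ)) : ℂˣ) : ℂ) * χ j w := by
    intro j g hg w
    have h4 := hχ0 j g hg w
    have h5 : (μ g : ℂ) ^ (k / 2) ≠ 0 := pow_ne_zero _ (μ g).ne_zero
    have h6 : ((μ g ^ i : ℂˣ) : ℂ) = (μ g : ℂ) ^ (k / 2) * ((μ g ^ (i - (k / 2 : ℕ)) : ℂˣ) : ℂ) := by
      have h7 : μ g ^ i = μ g ^ (k / 2) * μ g ^ (i - (k / 2 : ℕ)) := by
        rw [← zpow_natCast, ← zpow_add]
        congr 1
        ring
      rw [h7, Units.val_mul, Units.val_pow_eq_pow_val]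
    rw [h6, mul_assoc] at h4
    exact mul_left_cancel₀ h5 h4
  have hTs : T = ∑ j, (LinearMap.toSpanSingleton ℂ (W →ₗ[ℂ] ℂ) (χ j)).compMultilinearMap (α j) := by
    refine MultilinearMap.ext fun v => LinearMap.ext fun w => ?_
    rw [hval, GL_msum, LinearMap.sum_apply]
    refine Finset.sum_congr rfl fun j _ => ?_
    show χ j w * α j v = α j v • χ j w
    rw [smul_eq_mul, mul_comm]
  rw [hTs]
  refine Submodule.sum_mem _ fun j _ => ?_
  have key : ∀ τ ∈ Submodule.span ℂ Pr,
      (LinearMap.toSpanSingleton ℂ (W →ₗ[ℂ] ℂ) (χ j)).compMultilinearMap τ ∈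
        Submodule.span ℂ {T' : MultilinearMap ℂ (fun _ : Fin k => H) (W →ₗ[ℂ] ℂ) | IsProduct ρ σ μ G' i T'} := by
    intro τ hτ
    induction hτ using Submodule.span_induction with
    | mem τ hτ =>
      obtain ⟨m, e, β, hβ, hτv⟩ := h3 τ hτ
      have hm : k / 2 = m := by
        have h4 := Fintype.card_congr e
        rw [Fintype.card_sum, Fintype.card_fin, Fintype.card_fin] at h4
        omega
      refine Submodule.subset_span ⟨m, e, β, χ j, hβ, fun g hg w => ?_, fun v w => ?_⟩
      · rw [hχ j g hg w, hm]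
      · show τ v • χ j w = (∏ j, β j (v (e (Sum.inl j))) (v (e (Sum.inr j)))) * χ j w
        rw [smul_eq_mul, hτv]
    | zero =>
      have h0 : (LinearMap.toSpanSingleton ℂ (W →ₗ[ℂ] ℂ) (χ j)).compMultilinearMap
          (0 : MultilinearMap ℂ (fun _ : Fin k => H) ℂ) = 0 := by
        refine MultilinearMap.ext fun v => ?_
        show (0 : ℂ) • χ j = 0
        rw [zero_smul]
      rw [h0]
      exact Submodule.zero_mem _
    | add x y _ _ hx hy =>
      have h0 : (LinearMap.toSpanSingleton ℂ (W →ₗ[ℂ] ℂ) (χ j)).compMultilinearMap (x + y) =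
          (LinearMap.toSpanSingleton ℂ (W →ₗ[ℂ] ℂ) (χ j)).compMultilinearMap x +
            (LinearMap.toSpanSingleton ℂ (W →ₗ[ℂ] ℂ) (χ j)).compMultilinearMap y := by
        refine MultilinearMap.ext fun v => ?_
        show (x v + y v) • χ j = x v • χ j + y v • χ j
        rw [add_smul]
      rw [h0]
      exact Submodule.add_mem _ hx hy
    | smul r x _ hx =>
      have h0 : (LinearMap.toSpanSingleton ℂ (W →ₗ[ℂ] ℂ) (χ j)).compMultilinearMap (r • x) =
          r • (LinearMap.toSpanSingleton ℂ (W →ₗ[ℂ] ℂ) (χ j)).compMultilinearMap x := by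
        refine MultilinearMap.ext fun v => ?_
        show (r • x v) • χ j = r • (x v • χ j)
        rw [smul_eq_mul, mul_smul]
      rw [h0]
      exact Submodule.smul_mem _ _ hx
  exact key (α j) (hαS j)

end TGR
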