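import Pool.Agent.Lib.MP_021685_agTI.FT1

/-! LEAF GM (medium-).  The eigenbasis of an operator whose characteristic polynomial has no multiple roots.

PROOF.  `F` is semisimple: `aeval F F.charpoly = 0` and `F.charpoly` is separable, hence squarefree (`Module.End.isSemisimple_of_squarefree_aeval_eq_zero`, `Polynomial.Separable.squarefree`).  `TI.eigenbasis` (`MP_021685_agTI/FT1.lean`) gives `ι`,
a basis `e` and `lam` with `F (e i) = lam i • e i`.  The matrix of `F` in this basis is `Matrix.diagonal lam` (classical decidable equality on `ι`), and its characteristic polynomial is `∏ i, (X - C (lam i))`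
(`LinearMap.charpoly_toMatrix`; `Matrix.charpoly_diagonal` or `Matrix.charpoly_of_upperTriangular`, or `Matrix.charpoly` and `Matrix.det_diagonal`). -/

set_option autoImplicit false

namespace TGR

open Polynomial Module

theorem exists_basis {H : Type} [AddCommGroup H] [Module ℂ H] [FiniteDimensional ℂ H] {F : End ℂ H}
    (hsep : F.charpoly.Separable) :
    ∃ (ι : Type) (_ : Fintype ι) (e : Basis ι ℂ H) (lam : ι → ℂ), (∀ i, F (e i) = lam i • e i) ∧
      F.charpoly = ∏ i, (X - C (lam i)) := by
  classical
  have hss : Module.End.IsSemisimple F :=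
    Module.End.isSemisimple_of_squarefree_aeval_eq_zero hsep.squarefree F.aeval_self_charpoly
  obtain ⟨ι, hι, e, lam, h1, -⟩ := TI.eigenbasis H F hss
  refine ⟨ι, hι, e, lam, h1, ?_⟩
  have h2 : LinearMap.toMatrix e e F = Matrix.diagonal lam := by
    ext i j
    rw [LinearMap.toMatrix_apply, h1 j, map_smul, Finsupp.smul_apply, e.repr_self,
      Finsupp.single_apply, Matrix.diagonal_apply, smul_eq_mul]
    by_cases h : j = i
    · rw [if_pos h, if_pos h.symm, mul_one, h]
    · rw [if_neg h, if_neg (fun h' => h h'.symm), mul_zero]
  rw [← LinearMap.charpoly_toMatrix F e, h2, Matrix.charpoly_diagonal]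

end TGR
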