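import Pool.Agent.Lib.MP_021685_agTAR.RD

/-! The numbers with `TAR.Small` are closed under products, inverses and integral powers. -/

set_option autoImplicit false

namespace TGR

open Polynomial

private theorem GN1_rev (f : ℚ[X]) {x : ℂ} (hx : x ≠ 0) :
    aeval x⁻¹ f.reverse = 0 ↔ aeval x f = 0 := by
  let _ : Invertible x := invertibleOfNonzero hx
  have h1 := eval₂_reverse_eq_zero_iff (algebraMap ℚ ℂ) x f
  rwa [invOf_eq_inv] at h1

theorem foreign_inv {q : ℕ} {P : ℤ[X]} {g : ℕ} {ρ : ℂ} (h0 : ρ ≠ 0) (h : TAR.Foreign q P g ρ) : TAR.Foreign q P g ρ⁻¹ := by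
  obtain ⟨f, hf, hr, hcase⟩ := h
  refine ⟨f.reverse, fun h1 => hf (reverse_eq_zero.1 h1), (GN1_rev f h0).2 hr, ?_⟩
  rcases hcase with h1 | h1 | h1
  · exact Or.inl (lt_of_le_of_lt (reverse_natDegree_le f) h1)
  · refine Or.inr (Or.inl fun w hw => h1 w fun j => ?_)
    have h2 : Submonoid.closure {z : ℂ | z ≠ 0 ∧ (aeval z f.reverse = 0 ∨ aeval z⁻¹ f.reverse = 0)} ≤
        Submonoid.closure {z : ℂ | z ≠ 0 ∧ (aeval z f = 0 ∨ aeval z⁻¹ f = 0)} := by
      refine Submonoid.closure_mono ?_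
      rintro z ⟨hz, h3 | h3⟩
      · refine ⟨hz, Or.inr ?_⟩
        rw [← GN1_rev f (inv_ne_zero hz), inv_inv]
        exact h3
      · exact ⟨hz, Or.inl ((GN1_rev f hz).1 h3)⟩
    exact h2 (hw j)
  · refine Or.inr (Or.inr fun z hz hmem => h1 z hz ?_)
    have h2 : IntermediateField.adjoin ℚ (f.reverse.rootSet ℂ) ≤
        IntermediateField.adjoin ℚ (f.rootSet ℂ) := by
      refine IntermediateField.adjoin_le_iff.2 fun w hw => ?_
      have hw1 := (mem_rootSet.1 hw).2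
      have hw0 : w ≠ 0 := by
        intro h3
        rw [h3, aeval_def, eval₂_at_zero, coeff_zero_reverse] at hw1
        exact hf (leadingCoeff_eq_zero.1 ((map_eq_zero _).1 hw1))
      have h3 : aeval w⁻¹ f = 0 := by
        rw [← GN1_rev f (inv_ne_zero hw0), inv_inv]
        exact hw1
      have h4 : w⁻¹ ∈ IntermediateField.adjoin ℚ (f.rootSet ℂ) :=
        IntermediateField.subset_adjoin ℚ _ (mem_rootSet.2 ⟨hf, h3⟩)
      have h5 := inv_mem h4
      rw [inv_inv] at h5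
      exact h5
    exact h2 hmem

theorem small_inv {q : ℕ} {P : ℤ[X]} {g : ℕ} {y : ℂ} (h0 : y ≠ 0) (h : TAR.Small q P g y) : TAR.Small q P g y⁻¹ := by
  obtain ⟨N, hN, hy⟩ := h
  refine ⟨N, hN, ?_⟩
  rw [inv_pow]
  have key : ∀ w : ℂ, w ∈ Submonoid.closure {ρ : ℂ | TAR.Foreign q P g ρ} → w ≠ 0 →
      w⁻¹ ∈ Submonoid.closure {ρ : ℂ | TAR.Foreign q P g ρ} := by
    intro w hw
    induction hw using Submonoid.closure_induction with
    | mem x hx => exact fun hx0 => Submonoid.subset_closure (foreign_inv hx0 hx)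
    | one =>
      intro _
      rw [inv_one]
      exact one_mem _
    | mul x y _ _ hx hy =>
      intro hxy
      rw [mul_inv]
      exact mul_mem (hx (left_ne_zero_of_mul hxy)) (hy (right_ne_zero_of_mul hxy))
  exact key _ hy (pow_ne_zero _ h0)

theorem small_mul {q : ℕ} {P : ℤ[X]} {g : ℕ} {y y' : ℂ} (h : TAR.Small q P g y) (h' : TAR.Small q P g y') :
    TAR.Small q P g (y * y') := by
  obtain ⟨N, hN, hy⟩ := h
  obtain ⟨N', hN', hy'⟩ := h'
  refine ⟨N * N', Nat.mul_pos hN hN', ?_⟩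
  rw [mul_pow, pow_mul y, mul_comm N N', pow_mul y']
  exact mul_mem (pow_mem hy _) (pow_mem hy' _)

theorem small_one {q : ℕ} {P : ℤ[X]} {g : ℕ} : TAR.Small q P g 1 := by
  refine ⟨1, one_pos, ?_⟩
  rw [one_pow]
  exact one_mem _

theorem small_nat {q : ℕ} {P : ℤ[X]} {g : ℕ} (hg : 0 < g) (m : ℕ) : TAR.Small q P g (m : ℂ) := by
  refine ⟨1, one_pos, ?_⟩
  rw [pow_one]
  refine Submonoid.subset_closure ⟨X - C (m : ℚ), X_sub_C_ne_zero _, ?_, Or.inl ?_⟩
  · simp
  · rw [natDegree_X_sub_C]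
    omega

private theorem GN1_pow {q : ℕ} {P : ℤ[X]} {g : ℕ} {y : ℂ} (h : TAR.Small q P g y) (k : ℕ) :
    TAR.Small q P g (y ^ k) := by
  induction k with
  | zero =>
    rw [pow_zero]
    exact small_one
  | succ k ih =>
    rw [pow_succ]
    exact small_mul ih h

private theorem GN1_zpow {q : ℕ} {P : ℤ[X]} {g : ℕ} {y : ℂ} (h0 : y ≠ 0) (h : TAR.Small q P g y) (l : ℤ) :
    TAR.Small q P g (y ^ l) := by
  rcases l with k | k
  · rw [Int.ofNat_eq_natCast, zpow_natCast]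
    exact GN1_pow h k
  · rw [zpow_negSucc]
    exact small_inv (pow_ne_zero _ h0) (GN1_pow h _)

theorem small_prod {q : ℕ} {P : ℤ[X]} {g : ℕ} {κ : Type} [Fintype κ] {rho : κ → ℂ}
    (h : ∀ j, rho j ≠ 0 ∧ TAR.Small q P g (rho j)) (l : κ → ℤ) :
    (∏ j, rho j ^ l j) ≠ 0 ∧ TAR.Small q P g (∏ j, rho j ^ l j) := by
  classical
  have key : ∀ s : Finset κ, (∏ j ∈ s, rho j ^ l j) ≠ 0 ∧ TAR.Small q P g (∏ j ∈ s, rho j ^ l j) := by
    intro s
    induction s using Finset.induction_on with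
    | empty =>
      rw [Finset.prod_empty]
      exact ⟨one_ne_zero, small_one⟩
    | insert a s ha ih =>
      rw [Finset.prod_insert ha]
      exact ⟨mul_ne_zero (zpow_ne_zero _ (h a).1) ih.1,
        small_mul (GN1_zpow (h a).1 (h a).2 (l a)) ih.2⟩
  exact key Finset.univ

end TGR
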