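import Pool.Agent.Lib.MP_021685_agTG.G0

/-! LEAF GS (medium-, two theorems).  Skew endomorphisms and skew matrices.

PROOF of `skew_iff`.  `toLin e e M (e l) = ∑ m, M m l • e m` (`Matrix.toLin_self`).  By `h.form` `ψ (toLin M (e l)) (e (bar k)) + ψ (e l) (toLin M (e (bar k))) = ε k * M k l + ε l * M (bar l) (bar k)`.  So membership in `sp ψ` gives
`IsSkewE`; conversely both sides of the condition are bilinear in `u`, `v`, so it is enough to take `u = e l`, `v = e m = e (bar (bar m))` (`Basis.ext`).  (See also `entry` in `MP_021685_agTL3/MB.lean`, finished in TLL_MB.lean.)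
PROOF of `uu_skew`.  Direct computation from the definition of `TLF.uu` (`Matrix.single_apply`; `ε i / ε j = ε i * ε j` as the `ε` are signs, `ε (bar i) = - ε i`); cases `k = i ∧ l = j`, `k = bar j ∧ l = bar i`, both (`j = bar i`),
neither. -/

set_option autoImplicit false

namespace TGR

open Module Function

variable {H ι : Type} [AddCommGroup H] [Module ℂ H] [Fintype ι] [DecidableEq ι] {bar : ι → ι} {ε : ι → ℂ}
  {e : Basis ι ℂ H} {ψ : H →ₗ[ℂ] H →ₗ[ℂ] ℂ}

private theorem GS_key (h : Nf bar ε e ψ) (M : Matrix ι ι ℂ) (k l : ι) :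
    ψ (Matrix.toLin e e M (e l)) (e (bar k)) + ψ (e l) (Matrix.toLin e e M (e (bar k))) =
      ε k * M k l + ε l * M (bar l) (bar k) := by
  have hbar : ∀ {a b : ι}, bar a = bar b → a = b := fun {a b} hab => by
    rw [← h.bar_bar a, hab, h.bar_bar]
  have h1 : ψ (Matrix.toLin e e M (e l)) (e (bar k)) = ε k * M k l := by
    rw [Matrix.toLin_self, map_sum, LinearMap.sum_apply, Finset.sum_eq_single k]
    · rw [map_smul, LinearMap.smul_apply, h.form, if_pos rfl, smul_eq_mul, mul_comm]
    · intro m _ hm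
      rw [map_smul, LinearMap.smul_apply, h.form, if_neg (fun h2 => hm (hbar h2).symm), smul_zero]
    · intro hk
      exact absurd (Finset.mem_univ k) hk
  have h2 : ψ (e l) (Matrix.toLin e e M (e (bar k))) = ε l * M (bar l) (bar k) := by
    rw [Matrix.toLin_self, map_sum, Finset.sum_eq_single (bar l)]
    · rw [map_smul, h.form, if_pos rfl, smul_eq_mul, mul_comm]
    · intro m _ hm
      rw [map_smul, h.form, if_neg hm, smul_zero]
    · intro hk
      exact absurd (Finset.mem_univ _) hk
  rw [h1, h2]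

theorem skew_iff (h : Nf bar ε e ψ) (M : Matrix ι ι ℂ) : Matrix.toLin e e M ∈ sp ψ ↔ TLF.IsSkewE bar ε M := by
  rw [mem_sp]
  constructor
  · intro hX k l
    rw [← GS_key h M k l]
    exact hX (e l) (e (bar k))
  · intro hM
    have hB : ψ ∘ₗ Matrix.toLin e e M + ψ.compl₂ (Matrix.toLin e e M) = 0 := by
      refine e.ext fun l => e.ext fun m => ?_
      have h1 := GS_key h M (bar m) l
      have h2 := hM (bar m) l
      rw [h.bar_bar] at h1 h2
      exact h1.trans h2
    intro u v
    exact LinearMap.congr_fun (LinearMap.congr_fun hB u) v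

theorem uu_skew (h : Nf bar ε e ψ) (i j : ι) : TLF.IsSkewE bar ε (TLF.uu bar ε i j) := by
  intro k l
  have hne : ε j ≠ 0 := by
    intro h0
    have h1 := h.ε_sq j
    rw [h0, mul_zero] at h1
    exact zero_ne_one h1
  have e1 : ∀ a b : ι, a = bar b ↔ bar a = b := by
    intro a b
    constructor
    · rintro rfl
      exact h.bar_bar b
    · rintro rfl
      exact (h.bar_bar a).symm
  have e2 : ∀ a b : ι, bar a = bar b ↔ a = b := by
    intro a b
    rw [← e1, h.bar_bar]
  unfold TLF.uu
  simp only [Matrix.sub_apply, Matrix.smul_apply, Matrix.single_apply, smul_eq_mul]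
  rw [if_congr (P := i = bar l ∧ j = bar k) (Q := bar j = k ∧ bar i = l)
      (by rw [e1, e1, and_comm]) rfl rfl,
    if_congr (P := bar j = bar l ∧ bar i = bar k) (Q := i = k ∧ j = l) (by rw [e2, e2, and_comm]) rfl rfl]
  by_cases hA : i = k ∧ j = l
  · obtain ⟨rfl, rfl⟩ := hA
    rw [if_pos ⟨rfl, rfl⟩]
    by_cases hB : bar j = i ∧ bar i = j
    · rw [if_pos hB]
      have h1 : ε i = - ε j := by rw [← hB.1, h.ε_bar]
      rw [h1]
      field_simp
      ring
    · rw [if_neg hB]
      field_simp
      ring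
  · rw [if_neg hA]
    by_cases hB : bar j = k ∧ bar i = l
    · obtain ⟨rfl, rfl⟩ := hB
      rw [if_pos ⟨rfl, rfl⟩, h.ε_bar, h.ε_bar]
      field_simp
      ring
    · rw [if_neg hB]
      ring

end TGR
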