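import Pool.Agent.Lib.MP_021685_agTG.GA
import Pool.Agent.Lib.MP_021685_agTG.GS

/-! LEAF GT (medium-).  The matrices of the skew endomorphisms which kill `T`.

PROOF.  The fields of `TLF.IsTorusLie` (`MP_021685_agTL2/R0.lean`): `ε_ne` from `h.ε_sq`; `skew` is `skew_iff`; `tor`: an odd diagonal matrix is skew (`ε k * x k + ε k * x (bar k) = 0` on the diagonal, the other entries are zero) so
`toLin e e (diagonal x) ∈ sp ψ` by `skew_iff`, and it is in `kill T` by `hd`; `br`: `toLin (M * N - N * M) = toLin M * toLin N - toLin N * toLin M` (`Matrix.toLin_mul`, `map_sub`, `Module.End.mul_eq_comp`), in `kill T` by `kill_bracket`,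
in `sp ψ` by a direct computation with `mem_sp` (`ψ (X Y u) v = - ψ (Y u) (X v) = ψ u (Y X v)`). -/

set_option autoImplicit false

namespace TGR

open Module Function

theorem torusLie {H W ι : Type} [AddCommGroup H] [Module ℂ H] [AddCommGroup W] [Module ℂ W] [Fintype ι]
    [DecidableEq ι] {bar : ι → ι} {ε : ι → ℂ} {e : Basis ι ℂ H} {ψ : H →ₗ[ℂ] H →ₗ[ℂ] ℂ} (h : Nf bar ε e ψ) {k : ℕ}
    {T : MultilinearMap ℂ (fun _ : Fin k => H) (W →ₗ[ℂ] ℂ)}
    (hd : ∀ x : ι → ℂ, (∀ i, x (bar i) = - x i) → Matrix.toLin e e (Matrix.diagonal x) ∈ kill T) :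
    TLF.IsTorusLie bar ε ((alg T ψ).comap (Matrix.toLin e e).toLinearMap) := by
  have hbr : ∀ X Y : End ℂ H, X ∈ alg T ψ → Y ∈ alg T ψ → X * Y - Y * X ∈ alg T ψ := by
    intro X Y hX hY
    refine ⟨kill_bracket hX.1 hY.1, ?_⟩
    intro u v
    have h1 := hX.2 (Y u) v
    have h2 := hY.2 u (X v)
    have h3 := hY.2 (X u) v
    have h4 := hX.2 u (Y v)
    show ψ (X (Y u) - Y (X u)) v + ψ u (X (Y v) - Y (X v)) = 0
    rw [map_sub, map_sub, LinearMap.sub_apply]
    linear_combination h1 - h2 - h3 + h4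
  refine
    { bar_bar := h.bar_bar
      bar_ne := h.bar_ne
      ε_ne := ?_
      ε_bar := h.ε_bar
      br := ?_
      skew := ?_
      tor := ?_ }
  · intro i hi
    have h1 := h.ε_sq i
    rw [hi, mul_zero] at h1
    exact zero_ne_one h1
  · intro X hX Y hY
    have h1 : Matrix.toLin e e (X * Y - Y * X) =
        Matrix.toLin e e X * Matrix.toLin e e Y - Matrix.toLin e e Y * Matrix.toLin e e X := by
      rw [map_sub, Matrix.toLin_mul e e e, Matrix.toLin_mul e e e]
      rfl
    show Matrix.toLin e e (X * Y - Y * X) ∈ alg T ψ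
    rw [h1]
    exact hbr _ _ hX hY
  · intro X hX
    have h1 : Matrix.toLin e e X ∈ alg T ψ := hX
    exact (skew_iff h X).1 h1.2
  · intro x hx
    have h1 : TLF.IsSkewE bar ε (Matrix.diagonal x) := by
      intro k l
      by_cases hkl : k = l
      · subst hkl
        rw [Matrix.diagonal_apply_eq, Matrix.diagonal_apply_eq, hx]
        ring
      · have h2 : bar l ≠ bar k := by
          intro h3
          apply hkl
          rw [← h.bar_bar k, ← h.bar_bar l, h3]
        rw [Matrix.diagonal_apply_ne _ hkl, Matrix.diagonal_apply_ne _ h2, mul_zero, mul_zero, add_zero]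
    show Matrix.toLin e e (Matrix.diagonal x) ∈ alg T ψ
    exact ⟨hd x hx, (skew_iff h _).2 h1⟩

end TGR
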