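import Pool.Agent.Lib.MP_021685_agTG.GB1
import Pool.Agent.Lib.MP_021685_agTG.GB2
import Pool.Agent.Lib.MP_021685_agTG.GB3
import Pool.Agent.Lib.MP_021685_agTG.GC
import Pool.Agent.Lib.MP_021685_agTG.GT
import Pool.Agent.Lib.MP_021685_agTG.GE
import Pool.Agent.Lib.MP_021685_agTG.GF
import Pool.Agent.Lib.MP_021685_agTG.GG
import Pool.Agent.Lib.MP_021685_agTG.GI
import Pool.Agent.Lib.MP_021685_agTG.GJ
import Pool.Agent.Lib.MP_021685_agTG.GL
import Pool.Agent.Lib.MP_021685_agTG.GM
import Pool.Agent.Lib.MP_021685_agTL2.N3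
import Pool.Agent.Lib.MP_021685_agTL2.R2
import Pool.Agent.Lib.MP_021685_agTL3.MA2
import Pool.Agent.Lib.MP_021685_agTL3.MI
import Pool.Agent.Lib.MP_021685_agTL3.MS
import Pool.Agent.Lib.MP_021685_agTL3.MT

/-!
# Groups with one element with characteristic polynomial `P`: all Tate forms are combinations of products
-/

set_option autoImplicit false

namespace TGR

open Polynomial Module Function TLL Pool.Agent.Lib.MP_802513_agJ

theorem full_of_data {Q g : ℕ} (hQ : 1 < Q) {P : ℤ[X]} (hg : (∃ z : ℂ, aeval z P = 0) → 0 < g)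
    (hsep : (P.map (Int.castRingHom ℂ)).Separable)
    (hW : ∀ z : ℂ, aeval z P = 0 → ‖z‖ ^ 2 = (Q : ℝ) ∧ z ^ 2 ≠ (Q : ℂ)) (hF : TAR.FullOver Q P g) : Full Q P g := by
  intro G H W _ _ _ _ _ _ _ ρ σ μ hform φ hφ hchar hsm G' k i T hG' hT
  classical
  obtain ⟨ψ, halt, hnd, hψ⟩ := hform
  obtain ⟨ι, _, e₀, lam, he, hprod⟩ := exists_basis (F := ρ φ) (by rw [hchar]; exact hsep)
  rw [hchar] at hprod
  have hinj : Function.Injective lam := by
    rw [hprod] at hsep
    exact Polynomial.separable_prod_X_sub_C_iff.1 hsep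
  obtain ⟨-, bar, hbb, hbn, hbar⟩ := TLF.exists_bar hprod hinj hW
  have hQ0 : (Q : ℂ) ≠ 0 := Nat.cast_ne_zero.2 (by omega)
  have hlam0 : ∀ i, lam i ≠ 0 := fun i h0 => hQ0 (by rw [← hbar i, h0, zero_mul])
  have h0 : ∀ i j, ψ (e₀ i) (e₀ j) ≠ 0 → j = bar i := by
    intro i j hij
    have h1 := hψ φ (e₀ i) (e₀ j)
    rw [he, he, map_smul, map_smul, LinearMap.smul_apply, smul_eq_mul, smul_eq_mul, hφ] at h1
    have h2 : lam i * lam j = Q := mul_right_cancel₀ hij (by linear_combination h1)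
    exact hinj (mul_left_cancel₀ (hlam0 i) (h2.trans (hbar i).symm))
  obtain ⟨ε, t, h1, h2, h3, h4⟩ := exists_scaling halt hnd e₀ bar hbb hbn h0
  obtain ⟨e, hee⟩ : ∃ e : Basis ι ℂ H, e = e₀.unitsSMul t := ⟨_, rfl⟩
  have hnf : Nf bar ε e ψ := ⟨hbb, hbn, h1, h2, h3, by rw [hee]; exact h4⟩
  have he' : ∀ i, ρ φ (e i) = lam i • e i := by
    intro i
    rw [hee, Basis.unitsSMul_apply, Units.smul_def, map_smul, he, smul_comm]
  obtain ⟨d, hd, hTd⟩ := exists_pow hφ hG' hT
  have hdiag : ∀ x : ι → ℂ, (∀ i, x (bar i) = - x i) → Matrix.toLin e e (Matrix.diagonal x) ∈ kill T := by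
    intro x hx
    refine diag_kill e fun s hs => ?_
    rcases isEmpty_or_nonempty ι with hι | ⟨⟨i₀⟩⟩
    · exact Finset.sum_eq_zero fun a _ => isEmptyElim (s a)
    · refine weight hQ (hg ⟨lam i₀, ?_⟩) hF hprod hinj hbb hbar e he' hsm hd hTd s hs hx
      have h5 : aeval (lam i₀) P = (P.map (Int.castRingHom ℂ)).eval (lam i₀) := by
        rw [Polynomial.eval_map, Polynomial.aeval_def]
        rfl
      rw [h5, hprod, Polynomial.eval_prod]
      exact Finset.prod_eq_zero (Finset.mem_univ i₀) (by simp)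
  have hlie := torusLie hnf hdiag
  have hd' : ∀ i w, Kills bar ε (coords e (slice T w)) i i := fun i =>
    (kills_iff hnf i i).1 (TLF.uu_self hlie i).1
  have hs : ∀ i l, (∀ w, Kills bar ε (coords e (slice T w)) i l) → ∀ w, Kills bar ε (coords e (slice T w)) l i :=
    fun i l hil w => kills_symm hbb hbn h1 h2 h3 (fun m => hd' m w) (hil w)
  let s : Setoid ι :=
    { r := fun i l => ∀ w, Kills bar ε (coords e (slice T w)) i l
      iseqv := ⟨hd', fun {i l} hil => hs i l hil, fun {i l m} hil hlm w =>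
        kills_trans hbb hbn h1 h3 (fun m => hd' m w) (hil w) (hlm w)⟩ }
  have hA : ∀ X ∈ alg T ψ, ∀ k l, LinearMap.toMatrix e e X k l ≠ 0 → s k l := by
    intro X hX k l hne
    have h5 : LinearMap.toMatrix e e X ∈ (alg T ψ).comap (Matrix.toLin e e).toLinearMap := by
      show Matrix.toLin e e (LinearMap.toMatrix e e X) ∈ alg T ψ
      rw [Matrix.toLin_toMatrix]
      exact hX
    exact (kills_iff hnf k l).1 (TLF.uu_mem hlie h5 hne).1
  have hfin := finite_stable hbb hbn e (A := alg T ψ) fun x hx => hlie.tor x hx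
  obtain ⟨G'', hG'', hle, hfix⟩ := exists_fix ρ G' hG' {S | IsStable (alg T ψ) S} hfin
    fun g hg S hS => stable_map hT hψ hg hS
  let φc : ι → Quotient s := Quotient.mk s
  let Y : FFT.Sys ι (Quotient s) :=
    { bar := bar
      ε := ε
      φ := φc
      bar_bar := hbb
      ε_bar := h3
      ε_sq := h1
      ε_conj := h2
      φ_bar := fun i l hil => by
        have h5 : ∀ w, Kills bar ε (coords e (slice T w)) i l := Quotient.exact hil
        refine Quotient.sound (hs (bar l) (bar i) fun w j => ?_)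
        have h6 := h5 w j
        rw [hbb, hbb, h3, h3]
        linear_combination h6 }
  refine ⟨G'', hG'', mem_of_slices (fun g hg => hT g (hle hg)) (Products bar ε φc e k)
    (fun w => mem_products Y e (slice T w) fun i l hil j => ?_) ?_⟩
  · have h5 : ∀ w, Kills bar ε (coords e (slice T w)) i l := Quotient.exact hil
    exact h5 w j
  · rintro τ ⟨m, r, f, hτ⟩
    refine ⟨m, r, _, fun j g hg u v => pair_inv hnf (hψ g) (fun k l hne => Quotient.sound ?_) (f j) u v, hτ⟩
    exact block e s hA (fun S hS => (hfix g hg S hS).le) hne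

end TGR
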