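import Pool.Agent.Lib.MP_021685_agTG.GX
import Pool.Agent.Lib.MP_021685_agTL2.ZPb
import Pool.Agent.Lib.MP_021685_agTL2.ZPc
import Pool.Agent.Lib.MP_021685_agTAR.R5

/-!
# The polynomials over the fields `E i`
-/

set_option autoImplicit false

namespace TGR

open Polynomial Module TLF

theorem full_of_over {Q g r : ℕ} (hQ : 1 < Q) {E : Fin r → Type} [∀ i, Field (E i)] [∀ i, NumberField (E i)]
    (hE : ∀ i, finrank ℚ (E i) = 2 * g) {P : ℤ[X]} (hP : IsOver Q E P) (hF : TAR.FullOver Q P g) :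
    Full Q P g := by
  classical
  obtain ⟨-, hsep, J, _, a, ha, hind, hroot⟩ := hP
  refine full_of_data hQ ?_ hsep (fun z hz => ?_) hF
  · rintro ⟨z, hz⟩
    obtain ⟨j, -, -⟩ := (hroot _).1 hz
    have h3 := hE j
    have h4 : 0 < finrank ℚ (E j) := finrank_pos
    omega
  · obtain ⟨i, k, φ, rfl⟩ := (hroot z).1 hz
    refine ⟨?_, fun h0 => ?_⟩
    · have h1 := ha i k φ
      rw [Complex.mul_conj, Complex.normSq_eq_norm_sq] at h1
      exact_mod_cast h1
    · have hQ0 : (Q : E i) ≠ 0 := Nat.cast_ne_zero.2 (by omega)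
      have h1 : a i k ^ 2 = (Q : E i) := φ.injective (by rw [map_pow, map_natCast, h0])
      have h2 := hind i (Pi.single k 1) (by
        rw [Finset.prod_eq_single k]
        · rw [Pi.single_eq_same, zpow_one, h1, div_self hQ0]
        · intro l _ hl
          rw [Pi.single_eq_of_ne hl, zpow_zero]
        · intro hk
          exact absurd (Finset.mem_univ k) hk) k
      rw [Pi.single_eq_same] at h2
      exact one_ne_zero h2

theorem isOver_frob {q g r : ℕ} (hq : 0 < q) {t : Fin r → ℤ[X]} (hC : HI.Crit q g r t)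
    (hF : TI.Full q (∏ i, TI.frobPoly q (t i)))
    (E : Fin r → Type) [∀ i, Field (E i)] [∀ i, NumberField (E i)]
    (hE : ∀ i, HIA.IsFrobField q (t i) (E i)) : IsOver q E (∏ i, TI.frobPoly q (t i)) := by
  obtain ⟨hm, hs⟩ := frob_separable hq hC
  choose a ha hgen using hE
  have hroot : ∀ i (φ : E i →+* ℂ), aeval (φ (a i)) (∏ i, TI.frobPoly q (t i)) = 0 := by
    intro i φ
    rw [map_prod]
    refine Finset.prod_eq_zero (Finset.mem_univ i) ?_
    have h1 := congrArg φ (ha i)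
    rw [map_zero, aeval_def, hom_eval₂] at h1
    rw [aeval_def, ← h1]
    congr 1
    exact RingHom.ext_int _ _
  have hns : ∀ i (n : ℕ), 0 < n → (a i ^ 2 / (q : E i)) ^ n ≠ 1 := by
    intro i n hn h0
    have hq0 : (q : E i) ≠ 0 := Nat.cast_ne_zero.2 hq.ne'
    rw [div_pow, div_eq_one_iff_eq (pow_ne_zero _ hq0), ← pow_mul] at h0
    obtain ⟨φ⟩ : Nonempty (E i →+* ℂ) := inferInstance
    refine not_super hm hF (hroot i φ) (root_norm hq hC _ (hroot i φ)).2 hn ?_
    rw [← map_pow, h0, map_pow, map_natCast]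
  refine ⟨hm, hs, fun _ => Unit, fun _ => inferInstance, fun i _ => a i, fun i _ φ => ?_, fun i m hm0 k => ?_,
    fun z => ⟨fun hz => ?_, ?_⟩⟩
  · have h1 := (root_norm hq hC _ (hroot i φ)).1
    rw [Complex.mul_conj, Complex.normSq_eq_norm_sq]
    exact_mod_cast h1
  · rw [Fintype.prod_unique] at hm0
    by_contra hk
    have hk' : m default ≠ 0 := hk
    rcases Int.natAbs_eq (m default) with h1 | h1
    · rw [h1, zpow_natCast] at hm0
      exact hns i _ (Int.natAbs_pos.2 hk') hm0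
    · rw [h1, zpow_neg, zpow_natCast, inv_eq_one] at hm0
      exact hns i _ (Int.natAbs_pos.2 hk') hm0
  · rw [map_prod, Finset.prod_eq_zero_iff] at hz
    obtain ⟨i, -, hz⟩ := hz
    obtain ⟨φ, hφ⟩ := root_conj hq hC i (ha i) (hgen i) hz
    exact ⟨i, (), φ, hφ⟩
  · rintro ⟨i, -, φ, rfl⟩
    exact hroot i φ

theorem allLift_of_crit {q g r : ℕ} (hq : 0 < q) (hg : 2 ≤ g) {t : Fin r → ℤ[X]} (hC : HI.Crit q g r t)
    (hF : TI.Full q (∏ i, TI.frobPoly q (t i))) : AllLift q g t := by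
  intro E _ _ hE
  obtain ⟨h1, h2⟩ := TAR.allWeil_of_crit hq hg hC E hE
  refine ⟨h1, isOver_frob hq hC hF E hE, fun Q P hQ hP => ?_⟩
  obtain ⟨hm, -, J, _, a, ha, hind, hroot⟩ := id hP
  exact full_of_over hQ (fun i => (h1 i).2) hP ((h2 Q J a P (by omega) hm ha hroot).1 hind)

end TGR
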