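import Pool.Agent.Lib.MP_021685_agTG.GY
import Pool.Agent.Lib.MP_021685_agTR.R13
import Pool.Agent.Lib.MP_021685_agTI.FMain
import Pool.Agent.Lib.MP_802513_agHI.H6

/-! The main theorem for number fields: abelian varieties with one reduction in the one hundred per cent. -/

set_option autoImplicit false

namespace TGR

open Polynomial TI

/-- The property of a good tuple. -/
theorem lift_of_good {q g r : ℕ} (hq : 0 < q) (hg3 : 3 ≤ g) {t : Fin r → ℤ[X]} (hG : GoodT q g t) :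
    AllLift q g t := by
  have hC := HI.crit_of_good hg3 hG
  refine allLift_of_crit hq (by omega) hC ?_
  obtain ⟨hW, hirr, l, hl, hlg, hlq, h1, h2, hsep, hj⟩ := hG
  have hcube : 2 * g + 1 < g ^ 3 := by nlinarith [hg3, sq_nonneg (g - 1 : ℤ)]
  exact criterion hq t (fun i => (hW i).1) (fun i => (hW i).2.1) hirr l hl (fun i => hcube.trans (hlg i)) hlq h1 h2
    hsep hj

/-- One hundred per cent of the `r`-tuples of abelian varieties over the field with `q` elements, for every `q ≥ 2`; the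
constant does not depend on `r`. -/
theorem main (q : ℕ) (hq : 2 ≤ q) (p : ℕ) (hp : 2 ≤ p) : ∃ C : ℝ, ∃ g₀ : ℕ, ∀ g : ℕ, g₀ ≤ g →
    ∀ Y : Set ℤ[X], {h | h ∈ Weil q g ∧ ¬ (p : ℤ) ∣ h.coeff 0} ⊆ Y → Y ⊆ Weil q g →
      Y.Finite ∧ Y.Nonempty ∧ ∀ r : ℕ,
        (({t : Fin r → ℤ[X] | (∀ i, t i ∈ Y) ∧ ¬ AllLift q g t}).ncard : ℝ) ≤
          C * r * Real.log g / g * (Y.ncard : ℝ) ^ r := by
  obtain ⟨C, g₀, hg₀, H⟩ := TR.good_tuples q hq p hp
  refine ⟨C, g₀, fun g hgg₀ Y hY1 hY2 => ?_⟩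
  obtain ⟨hf, hne, hc⟩ := H g hgg₀ Y hY1 hY2
  refine ⟨hf, hne, fun r => le_trans ?_ (hc r)⟩
  have hfin : {t : Fin r → ℤ[X] | (∀ i, t i ∈ Y) ∧ ¬ GoodT q g t}.Finite := by
    apply Set.Finite.subset (Set.Finite.pi' (fun _ : Fin r => hf))
    rintro t ⟨hty, -⟩
    exact hty
  have hsub : {t : Fin r → ℤ[X] | (∀ i, t i ∈ Y) ∧ ¬ AllLift q g t} ⊆
      {t : Fin r → ℤ[X] | (∀ i, t i ∈ Y) ∧ ¬ GoodT q g t} := by
    rintro t ⟨hty, hn⟩
    exact ⟨hty, fun hG => hn (lift_of_good (by omega) (hg₀.trans hgg₀) hG)⟩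
  exact_mod_cast Set.ncard_le_ncard hsub hfin

end TGR
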